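import Mathlib

/-!
# Biased random subsets and integrality of sums of unit fractions: local factors
-/

set_option autoImplicit false

namespace Pool.Agent.Zk43.HC

open Finset

/-- the factor of the characteristic function -/
noncomputable def fac (ρ θ : ℝ) : ℂ := ((1 - ρ : ℝ) : ℂ) + (ρ : ℂ) * Complex.exp (((2 * Real.pi * θ : ℝ) : ℂ) * Complex.I)

lemma fac_add_int (ρ θ : ℝ) (m : ℤ) : fac ρ (θ - m) = fac ρ θ := by
  unfold fac
  congr 2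
  have : (((2 * Real.pi * (θ - m) : ℝ) : ℂ) * Complex.I) =
      ((2 * Real.pi * θ : ℝ) : ℂ) * Complex.I - (m : ℂ) * (2 * Real.pi * Complex.I) := by
    push_cast; ring
  rw [this]
  exact (Complex.exp_periodic.sub_int_mul_eq m)

lemma fac_re (ρ θ : ℝ) : (fac ρ θ).re = 1 - ρ + ρ * Real.cos (2 * Real.pi * θ) := by
  unfold fac
  rw [Complex.add_re, Complex.ofReal_re, Complex.re_ofReal_mul, Complex.exp_ofReal_mul_I_re]

lemma fac_im (ρ θ : ℝ) : (fac ρ θ).im = ρ * Real.sin (2 * Real.pi * θ) := by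
  unfold fac
  rw [Complex.add_im, Complex.ofReal_im, Complex.im_ofReal_mul, Complex.exp_ofReal_mul_I_im]
  ring

lemma norm_sq_fac (ρ θ : ℝ) : ‖fac ρ θ‖ ^ 2 = 1 - 2 * ρ * (1 - ρ) * (1 - Real.cos (2 * Real.pi * θ)) := by
  rw [Complex.sq_norm, Complex.normSq_apply, fac_re, fac_im]
  have h := Real.sin_sq_add_cos_sq (2 * Real.pi * θ)
  have h2 : Real.sin (2 * Real.pi * θ) ^ 2 = 1 - Real.cos (2 * Real.pi * θ) ^ 2 := by linarith
  calc _ = (1 - ρ + ρ * Real.cos (2 * Real.pi * θ)) ^ 2 + ρ ^ 2 * Real.sin (2 * Real.pi * θ) ^ 2 := by ring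
    _ = _ := by rw [h2]; ring

lemma norm_fac_le (ρ θ : ℝ) (m : ℤ) (h0 : 0 ≤ ρ) (h1 : ρ ≤ 1 / 2) (hm : |θ - m| ≤ 1 / 2) :
    ‖fac ρ θ‖ ≤ Real.exp (-(4 * ρ * (θ - m) ^ 2)) := by
  rw [← fac_add_int ρ θ m]
  set u : ℝ := θ - m with hu
  have hpi := Real.pi_pos
  have hcos : Real.cos (2 * Real.pi * u) ≤ 1 - 8 * u ^ 2 := by
    have h := Real.cos_le_one_sub_mul_cos_sq (x := 2 * Real.pi * u) (by
      rw [abs_mul, abs_of_pos (by positivity)]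
      nlinarith)
    have e : 2 / Real.pi ^ 2 * (2 * Real.pi * u) ^ 2 = 8 * u ^ 2 := by
      field_simp; ring
    rw [e] at h
    exact h
  have hsq : ‖fac ρ u‖ ^ 2 ≤ Real.exp (-(4 * ρ * u ^ 2)) ^ 2 := by
    rw [norm_sq_fac, ← Real.exp_nat_mul]
    have h2 : 1 - 2 * ρ * (1 - ρ) * (1 - Real.cos (2 * Real.pi * u)) ≤ 1 - 8 * ρ * u ^ 2 := by
      have h3 : 2 * ρ * (1 - ρ) * (8 * u ^ 2) ≤ 2 * ρ * (1 - ρ) * (1 - Real.cos (2 * Real.pi * u)) := by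
        apply mul_le_mul_of_nonneg_left (by linarith)
        have : 0 ≤ 1 - ρ := by linarith
        positivity
      have h4 : 8 * ρ * u ^ 2 ≤ 2 * ρ * (1 - ρ) * (8 * u ^ 2) := by
        have : 0 ≤ ρ * u ^ 2 := by positivity
        nlinarith
      linarith
    refine h2.trans ?_
    have := Real.add_one_le_exp (((2 : ℕ) : ℝ) * -(4 * ρ * u ^ 2))
    push_cast at this ⊢
    linarith
  exact le_of_sq_le_sq hsq (Real.exp_pos _).le

/-- the centred factor -/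
noncomputable def gac (ρ θ : ℝ) : ℂ := fac ρ θ * Complex.exp (((-(2 * Real.pi * (ρ * θ)) : ℝ) : ℂ) * Complex.I)

lemma gac_eq (ρ θ : ℝ) : gac ρ θ = ((1 - ρ : ℝ) : ℂ) * Complex.exp (((-(2 * Real.pi * (ρ * θ)) : ℝ) : ℂ) * Complex.I) +
    (ρ : ℂ) * Complex.exp (((2 * Real.pi * ((1 - ρ) * θ) : ℝ) : ℂ) * Complex.I) := by
  unfold gac fac
  rw [add_mul]
  congr 1
  rw [mul_assoc (ρ : ℂ), ← Complex.exp_add]
  congr 2
  push_cast
  ring

lemma gac_im (ρ θ : ℝ) : (gac ρ θ).im = -(1 - ρ) * Real.sin (2 * Real.pi * (ρ * θ)) +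
    ρ * Real.sin (2 * Real.pi * ((1 - ρ) * θ)) := by
  rw [gac_eq, Complex.add_im, Complex.im_ofReal_mul, Complex.im_ofReal_mul, Complex.exp_ofReal_mul_I_im,
    Complex.exp_ofReal_mul_I_im, Real.sin_neg]
  ring

lemma gac_re (ρ θ : ℝ) : (gac ρ θ).re = (1 - ρ) * Real.cos (2 * Real.pi * (ρ * θ)) +
    ρ * Real.cos (2 * Real.pi * ((1 - ρ) * θ)) := by
  rw [gac_eq, Complex.add_re, Complex.re_ofReal_mul, Complex.re_ofReal_mul, Complex.exp_ofReal_mul_I_re,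
    Complex.exp_ofReal_mul_I_re, Real.cos_neg]

lemma gac_im_abs (ρ θ : ℝ) (h0 : 0 ≤ ρ) (h1 : ρ ≤ 1 / 2) :
    |(gac ρ θ).im| ≤ 100 * ρ * |θ| ^ 3 := by
  rw [gac_im]
  set a := 2 * Real.pi * (ρ * θ) with ha
  set b := 2 * Real.pi * ((1 - ρ) * θ) with hb
  have h2 : -(1 - ρ) * Real.sin a + ρ * Real.sin b = (1 - ρ) * (a - Real.sin a) - ρ * (b - Real.sin b) := by
    rw [ha, hb]; ring
  rw [h2]
  have h3 := Real.abs_sub_sin_le a
  have h4 := Real.abs_sub_sin_le b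
  have hπ : Real.pi ≤ 3.15 := Real.pi_lt_d2.le
  have hπ0 := Real.pi_pos
  have hT : |2 * Real.pi * θ| ≤ 6.3 * |θ| := by
    rw [abs_mul, abs_of_pos (by positivity)]
    nlinarith [abs_nonneg θ]
  have hT3 : |2 * Real.pi * θ| ^ 3 ≤ 251 * |θ| ^ 3 := by
    calc |2 * Real.pi * θ| ^ 3 ≤ (6.3 * |θ|) ^ 3 := by gcongr
      _ ≤ 251 * |θ| ^ 3 := by
        have : 0 ≤ |θ| ^ 3 := by positivity
        rw [mul_pow]; nlinarith
  have ha3 : |a| ^ 3 ≤ ρ * |2 * Real.pi * θ| ^ 3 := by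
    have : a = ρ * (2 * Real.pi * θ) := by rw [ha]; ring
    rw [this, abs_mul, abs_of_nonneg h0, mul_pow]
    have h5 : ρ ^ 3 ≤ ρ := by nlinarith [mul_nonneg h0 h0]
    exact mul_le_mul_of_nonneg_right h5 (by positivity)
  have hb3 : |b| ^ 3 ≤ |2 * Real.pi * θ| ^ 3 := by
    have : b = (1 - ρ) * (2 * Real.pi * θ) := by rw [hb]; ring
    rw [this, abs_mul, abs_of_nonneg (by linarith : 0 ≤ 1 - ρ), mul_pow]
    have h5 : (1 - ρ) ^ 3 ≤ 1 := pow_le_one₀ (by linarith) (by linarith)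
    calc (1 - ρ) ^ 3 * |2 * Real.pi * θ| ^ 3 ≤ 1 * |2 * Real.pi * θ| ^ 3 :=
          mul_le_mul_of_nonneg_right h5 (by positivity)
      _ = _ := one_mul _
  calc |(1 - ρ) * (a - Real.sin a) - ρ * (b - Real.sin b)|
      ≤ |(1 - ρ) * (a - Real.sin a)| + |ρ * (b - Real.sin b)| := abs_sub _ _
    _ = (1 - ρ) * |a - Real.sin a| + ρ * |b - Real.sin b| := by
        rw [abs_mul, abs_mul, abs_of_nonneg h0, abs_of_nonneg (by linarith : 0 ≤ 1 - ρ)]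
    _ ≤ 1 * (|a| ^ 3 / 6) + ρ * (|b| ^ 3 / 6) := by
        gcongr
        linarith
    _ ≤ 100 * ρ * |θ| ^ 3 := by
        have : 0 ≤ ρ * |θ| ^ 3 := by positivity
        have h6 : |a| ^ 3 ≤ 251 * (ρ * |θ| ^ 3) := by nlinarith
        have h7 : ρ * |b| ^ 3 ≤ 251 * (ρ * |θ| ^ 3) := by nlinarith
        nlinarith

lemma gac_re_ge (ρ θ : ℝ) (h0 : 0 ≤ ρ) (h1 : ρ ≤ 1 / 2) (hθ : |θ| ≤ 1 / 10) :
    1 / 2 ≤ (gac ρ θ).re := by
  rw [gac_re]
  have hc : ∀ s : ℝ, 0 ≤ s → s ≤ 1 → 1 / 2 ≤ Real.cos (2 * Real.pi * (s * θ)) := by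
    intro s hs0 hs1
    have h := Real.one_sub_sq_div_two_le_cos (x := 2 * Real.pi * (s * θ))
    have hπ : Real.pi ≤ 3.15 := Real.pi_lt_d2.le
    have hπ0 := Real.pi_pos
    have h2 : (2 * Real.pi * (s * θ)) ^ 2 ≤ 1 := by
      rw [sq_le_one_iff_abs_le_one, abs_mul, abs_of_pos (by positivity), abs_mul, abs_of_nonneg hs0]
      have h3 : s * |θ| ≤ 1 * (1 / 10) := mul_le_mul hs1 hθ (abs_nonneg _) (by norm_num)
      have h4 : 0 ≤ s * |θ| := by positivity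
      nlinarith
    linarith
  have hA := hc ρ h0 (by linarith)
  have hB := hc (1 - ρ) (by linarith) (by linarith)
  nlinarith

lemma abs_arg_gac_le (ρ θ : ℝ) (h0 : 0 ≤ ρ) (h1 : ρ ≤ 1 / 2) (hθ : |θ| ≤ 1 / 10) :
    |(gac ρ θ).arg| ≤ 400 * ρ * |θ| ^ 3 := by
  have hre := gac_re_ge ρ θ h0 h1 hθ
  have him := gac_im_abs ρ θ h0 h1
  have hpos : 0 ≤ (gac ρ θ).re := by linarith
  have hnorm : 1 / 2 ≤ ‖gac ρ θ‖ := hre.trans ((le_abs_self _).trans (Complex.abs_re_le_norm _))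
  have harg : |(gac ρ θ).arg| ≤ Real.pi / 2 := Complex.abs_arg_le_pi_div_two_iff.2 hpos
  have hsin := Real.mul_abs_le_abs_sin harg
  have hs2 : Real.sin (gac ρ θ).arg = (gac ρ θ).im / ‖gac ρ θ‖ := Complex.sin_arg _
  rw [hs2, abs_div, abs_of_pos (by linarith : 0 < ‖gac ρ θ‖)] at hsin
  have hπ : Real.pi ≤ 3.15 := Real.pi_lt_d2.le
  have hπ0 := Real.pi_pos
  have h5 : |(gac ρ θ).im| / ‖gac ρ θ‖ ≤ 2 * |(gac ρ θ).im| := by
    rw [div_le_iff₀ (by linarith)]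
    nlinarith [abs_nonneg (gac ρ θ).im]
  have h6 : |(gac ρ θ).arg| = Real.pi / 2 * (2 / Real.pi * |(gac ρ θ).arg|) := by
    field_simp
  rw [h6]
  have h7 : 0 ≤ ρ * |θ| ^ 3 := by positivity
  calc Real.pi / 2 * (2 / Real.pi * |(gac ρ θ).arg|) ≤ Real.pi / 2 * (2 * |(gac ρ θ).im|) :=
        mul_le_mul_of_nonneg_left (hsin.trans h5) (by positivity)
    _ ≤ 400 * ρ * |θ| ^ 3 := by nlinarith [abs_nonneg (gac ρ θ).im]

lemma re_prod_nonneg {ι : Type*} (s : Finset ι) (g : ι → ℂ) (h : ∑ i ∈ s, |(g i).arg| ≤ Real.pi / 2) :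
    0 ≤ (∏ i ∈ s, g i).re := by
  have e : ∏ i ∈ s, g i = ((∏ i ∈ s, ‖g i‖ : ℝ) : ℂ) * Complex.exp (((∑ i ∈ s, (g i).arg : ℝ) : ℂ) * Complex.I) := by
    push_cast
    rw [Finset.sum_mul, Complex.exp_sum, ← Finset.prod_mul_distrib]
    exact Finset.prod_congr rfl fun i _ => (Complex.norm_mul_exp_arg_mul_I (g i)).symm
  rw [e, Complex.re_ofReal_mul, Complex.exp_ofReal_mul_I_re]
  refine mul_nonneg (Finset.prod_nonneg fun i _ => norm_nonneg _) (Real.cos_nonneg_of_mem_Icc ?_)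
  have h2 := (Finset.abs_sum_le_sum_abs (fun i => (g i).arg) s).trans h
  rw [abs_le] at h2
  exact ⟨h2.1, h2.2⟩

end Pool.Agent.Zk43.HC
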