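import Pool.Agent.Zk43.HC.F1

/-!
# Biased random subsets and integrality of sums of unit fractions: the main lemma
-/

set_option autoImplicit false

namespace Pool.Agent.Zk43.HC

open Finset

lemma fac_neg (ρ θ : ℝ) : fac ρ (-θ) = (starRingEnd ℂ) (fac ρ θ) := by
  apply Complex.ext
  · rw [Complex.conj_re, fac_re, fac_re]
    congr 2
    rw [show 2 * Real.pi * -θ = -(2 * Real.pi * θ) by ring, Real.cos_neg]
  · rw [Complex.conj_im, fac_im, fac_im]
    rw [show 2 * Real.pi * -θ = -(2 * Real.pi * θ) by ring, Real.sin_neg]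
    ring

/-- the weight of a subset -/
noncomputable def wt {ι : Type*} [DecidableEq ι] (C : Finset ι) (ρ : ℝ) (S : Finset ι) : ℝ :=
  (∏ _i ∈ S, ρ) * ∏ _i ∈ C \ S, (1 - ρ)

lemma wt_nonneg {ι : Type*} [DecidableEq ι] (C : Finset ι) (ρ : ℝ) (S : Finset ι) (h0 : 0 ≤ ρ) (h1 : ρ ≤ 1) :
    0 ≤ wt C ρ S :=
  mul_nonneg (Finset.prod_nonneg fun _ _ => h0) (Finset.prod_nonneg fun _ _ => by linarith)

lemma prod_fac {ι : Type*} [DecidableEq ι] (C : Finset ι) (ρ : ℝ) (θ : ι → ℝ) :
    ∏ i ∈ C, fac ρ (θ i) = ∑ S ∈ C.powerset, (wt C ρ S : ℂ) *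
      Complex.exp (((2 * Real.pi * ∑ i ∈ S, θ i : ℝ) : ℂ) * Complex.I) := by
  have h1 : ∀ i, fac ρ (θ i) = (ρ : ℂ) * Complex.exp (((2 * Real.pi * θ i : ℝ) : ℂ) * Complex.I) +
      ((1 - ρ : ℝ) : ℂ) := fun i => by unfold fac; ring
  rw [Finset.prod_congr rfl fun i _ => h1 i, Finset.prod_add]
  refine Finset.sum_congr rfl fun S _ => ?_
  rw [Finset.prod_mul_distrib]
  unfold wt
  push_cast
  rw [← Complex.exp_sum, Finset.mul_sum, Finset.sum_mul]
  ring

lemma prod_real {ι : Type*} [DecidableEq ι] (C : Finset ι) (ρ : ℝ) (a : ι → ℝ) :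
    ∏ i ∈ C, (ρ * Real.exp (a i) + (1 - ρ)) = ∑ S ∈ C.powerset, wt C ρ S * Real.exp (∑ i ∈ S, a i) := by
  rw [Finset.prod_add]
  refine Finset.sum_congr rfl fun S _ => ?_
  rw [Finset.prod_mul_distrib]
  unfold wt
  rw [← Real.exp_sum]
  ring

open Classical in
lemma geom_re_le (P : ℕ) (hP : 0 < P) (x : ℝ) (n : ℤ) (hx : x * P = n) :
    ∑ h ∈ range P, Real.cos (2 * Real.pi * (h * x)) ≤ if (∃ m : ℤ, x = m) then (P : ℝ) else 0 := by
  have hP' : (P : ℝ) ≠ 0 := by exact_mod_cast hP.ne'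
  split_ifs with hm
  · calc ∑ h ∈ range P, Real.cos (2 * Real.pi * (h * x)) ≤ ∑ _h ∈ range P, (1 : ℝ) :=
          Finset.sum_le_sum fun _ _ => Real.cos_le_one _
      _ = P := by simp
  · set ζ : ℂ := Complex.exp (((2 * Real.pi * x : ℝ) : ℂ) * Complex.I) with hζ
    have hne : ζ ≠ 1 := by
      intro h
      rw [hζ, Complex.exp_eq_one_iff] at h
      obtain ⟨m, h⟩ := h
      apply hm
      refine ⟨m, ?_⟩
      have h2 : ((x : ℂ) - m) * (2 * Real.pi * Complex.I) = 0 := by
        push_cast at h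
        linear_combination h
      rcases mul_eq_zero.1 h2 with h3 | h3
      · have : (x : ℂ) = ((m : ℝ) : ℂ) := by push_cast; linear_combination h3
        exact_mod_cast this
      · exact absurd h3 (by simp [Real.pi_ne_zero])
    have hpow : ζ ^ P = 1 := by
      rw [hζ, ← Complex.exp_nat_mul, Complex.exp_eq_one_iff]
      refine ⟨n, ?_⟩
      have h4 : ((x : ℂ)) * P = n := by exact_mod_cast hx
      push_cast
      linear_combination (2 * Real.pi * Complex.I) * h4
    have hgeom : ∑ h ∈ range P, ζ ^ h = 0 := by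
      rw [geom_sum_eq hne, hpow]; simp
    have hre : ∀ h : ℕ, Real.cos (2 * Real.pi * (h * x)) = (ζ ^ h).re := by
      intro h
      rw [hζ, ← Complex.exp_nat_mul]
      rw [show ((h : ℕ) : ℂ) * (((2 * Real.pi * x : ℝ) : ℂ) * Complex.I) =
        ((2 * Real.pi * (h * x) : ℝ) : ℂ) * Complex.I by push_cast; ring, Complex.exp_ofReal_mul_I_re]
    rw [Finset.sum_congr rfl fun h _ => hre h, ← Complex.re_sum, hgeom]
    simp

lemma exp_le_quad {u : ℝ} (h0 : 0 ≤ u) (h1 : u ≤ 1) : Real.exp u ≤ 1 + u + u ^ 2 := by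
  have h := Real.abs_exp_sub_one_sub_id_le (x := u) (by rw [abs_of_nonneg h0]; exact h1)
  have := (abs_le.1 h).2
  linarith

theorem fourier_main {ι : Type*} (C : Finset ι) (v : ι → ℕ) (A ρ : ℝ) (P h₁ : ℕ) (hA : 1 ≤ A)
    (hv : ∀ i ∈ C, A ≤ v i) (hP0 : 0 < P) (hP : ∀ i ∈ C, v i ∣ P) (hρ0 : 0 < ρ) (hρ1 : ρ ≤ 1 / 2)
    (hsum : ρ * ∑ i ∈ C, (1 : ℝ) / v i = 1) (hh : 10 * (h₁ : ℝ) ≤ A) (hh3 : 400 * (h₁ : ℝ) ^ 3 ≤ A ^ 2)
    (hPA : 8 * (P : ℝ) ≤ Real.exp (A / 4)) (hh0 : 1 ≤ h₁)
    (hF : ∀ h : ℕ, h₁ ≤ h → h + h₁ ≤ P → ∏ i ∈ C, ‖fac ρ ((h : ℝ) / v i)‖ ≤ 1 / (4 * P)) :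
    ∃ S ⊆ C, ∑ i ∈ S, (1 : ℝ) / v i = 1 := by
  classical
  by_contra hno
  push Not at hno
  have hPR : (0 : ℝ) < P := by exact_mod_cast hP0
  have hv0 : ∀ i ∈ C, (0 : ℝ) < v i := fun i hi => by have := hv i hi; linarith
  set F : ℕ → ℂ := fun h => ∏ i ∈ C, fac ρ ((h : ℝ) / v i) with hFdef
  -- upper bound
  have hup : ∑ h ∈ range P, (F h).re ≤ P * ∑ S ∈ C.powerset.filter (fun S => ∃ m : ℤ, ∑ i ∈ S, (1 : ℝ) / v i = m),
      wt C ρ S := by
    have h1 : ∀ h : ℕ, (F h).re = ∑ S ∈ C.powerset, wt C ρ S *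
        Real.cos (2 * Real.pi * (h * ∑ i ∈ S, (1 : ℝ) / v i)) := by
      intro h
      rw [hFdef]
      simp only
      rw [prod_fac, Complex.re_sum]
      refine Finset.sum_congr rfl fun S _ => ?_
      rw [Complex.re_ofReal_mul, Complex.exp_ofReal_mul_I_re]
      congr 3
      rw [Finset.mul_sum]
      exact Finset.sum_congr rfl fun i _ => by ring
    rw [Finset.sum_congr rfl fun h _ => h1 h, Finset.sum_comm, Finset.mul_sum, Finset.sum_filter]
    refine Finset.sum_le_sum fun S hS => ?_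
    rw [← Finset.mul_sum]
    rw [Finset.mem_powerset] at hS
    have h2 : ∃ n : ℤ, (∑ i ∈ S, (1 : ℝ) / v i) * P = n := by
      refine ⟨∑ i ∈ S, ((P / v i : ℕ) : ℤ), ?_⟩
      rw [Finset.sum_mul, Int.cast_sum]
      refine Finset.sum_congr rfl fun i hi => ?_
      have hd := hP i (hS hi)
      rw [Int.cast_natCast, Nat.cast_div hd (hv0 i (hS hi)).ne']
      field_simp
    obtain ⟨n, hn⟩ := h2
    have h3 := geom_re_le P hP0 _ n hn
    have hw := wt_nonneg C ρ S hρ0.le (by linarith)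
    have h4 := mul_le_mul_of_nonneg_left h3 hw
    refine h4.trans (le_of_eq ?_)
    split_ifs <;> ring
  -- the tail
  have htail : ∑ S ∈ C.powerset.filter (fun S => ∃ m : ℤ, ∑ i ∈ S, (1 : ℝ) / v i = m), wt C ρ S ≤
      2 * Real.exp (-(A / 4)) := by
    have hsub : C.powerset.filter (fun S => ∃ m : ℤ, ∑ i ∈ S, (1 : ℝ) / v i = m) ⊆
        insert ∅ (C.powerset.filter (fun S => 2 ≤ ∑ i ∈ S, (1 : ℝ) / v i)) := by
      intro S hS
      rw [Finset.mem_filter, Finset.mem_powerset] at hS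
      obtain ⟨hS, m, hm⟩ := hS
      rw [Finset.mem_insert, Finset.mem_filter, Finset.mem_powerset]
      by_cases hSe : S = ∅
      · exact Or.inl hSe
      · right
        refine ⟨hS, ?_⟩
        have hpos : 0 < ∑ i ∈ S, (1 : ℝ) / v i :=
          Finset.sum_pos (fun i hi => by have := hv0 i (hS hi); positivity) (Finset.nonempty_iff_ne_empty.2 hSe)
        have hne := hno S hS
        rw [hm] at hpos hne ⊢
        have h5 : 0 < m := by exact_mod_cast hpos
        have h6 : m ≠ 1 := by intro h; apply hne; rw [h]; simp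
        have h7 : 2 ≤ m := by omega
        exact_mod_cast h7
    refine (Finset.sum_le_sum_of_subset_of_nonneg hsub fun S _ _ => wt_nonneg C ρ S hρ0.le (by linarith)).trans ?_
    have hempty : wt C ρ ∅ ≤ Real.exp (-(A / 4)) := by
      unfold wt
      rw [Finset.prod_empty, one_mul, Finset.sdiff_empty, Finset.prod_const]
      have hc : A / 4 ≤ ρ * C.card := by
        have h8 : A * ∑ i ∈ C, (1 : ℝ) / v i ≤ C.card := by
          rw [Finset.mul_sum, Finset.card_eq_sum_ones]
          push_cast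
          refine Finset.sum_le_sum fun i hi => ?_
          rw [mul_one_div, div_le_one (hv0 i hi)]
          exact hv i hi
        calc A / 4 ≤ A := by linarith
          _ = ρ * (A * ∑ i ∈ C, (1 : ℝ) / v i) := by rw [← mul_assoc, mul_comm ρ A, mul_assoc, hsum, mul_one]
          _ ≤ ρ * C.card := mul_le_mul_of_nonneg_left h8 hρ0.le
      have h9 : 1 - ρ ≤ Real.exp (-ρ) := by have := Real.add_one_le_exp (-ρ); linarith
      calc (1 - ρ) ^ C.card ≤ Real.exp (-ρ) ^ C.card := pow_le_pow_left₀ (by linarith) h9 _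
        _ = Real.exp (-(ρ * C.card)) := by rw [← Real.exp_nat_mul]; congr 1; ring
        _ ≤ Real.exp (-(A / 4)) := Real.exp_le_exp.2 (by linarith)
    have hbig : ∑ S ∈ C.powerset.filter (fun S => 2 ≤ ∑ i ∈ S, (1 : ℝ) / v i), wt C ρ S ≤ Real.exp (-(A / 4)) := by
      have h10 : ∑ S ∈ C.powerset.filter (fun S => 2 ≤ ∑ i ∈ S, (1 : ℝ) / v i), wt C ρ S ≤
          Real.exp (-A) * ∑ S ∈ C.powerset, wt C ρ S * Real.exp (∑ i ∈ S, A / 2 / v i) := by
        rw [Finset.mul_sum, Finset.sum_filter]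
        refine Finset.sum_le_sum fun S hS => ?_
        have hw := wt_nonneg C ρ S hρ0.le (by linarith)
        split_ifs with h2
        · have e : ∑ i ∈ S, A / 2 / (v i : ℝ) = A / 2 * ∑ i ∈ S, (1 : ℝ) / v i := by
            rw [Finset.mul_sum]
            exact Finset.sum_congr rfl fun i _ => by ring
          rw [e]
          have h11 : 1 ≤ Real.exp (-A) * Real.exp (A / 2 * ∑ i ∈ S, (1 : ℝ) / v i) := by
            rw [← Real.exp_add]
            apply Real.one_le_exp
            nlinarith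
          calc wt C ρ S = wt C ρ S * 1 := (mul_one _).symm
            _ ≤ wt C ρ S * (Real.exp (-A) * Real.exp (A / 2 * ∑ i ∈ S, (1 : ℝ) / v i)) :=
              mul_le_mul_of_nonneg_left h11 hw
            _ = _ := by ring
        · positivity
      rw [← prod_real] at h10
      have h12 : ∏ i ∈ C, (ρ * Real.exp (A / 2 / v i) + (1 - ρ)) ≤ Real.exp (3 / 4 * A) := by
        have h13 : ∀ i ∈ C, ρ * Real.exp (A / 2 / v i) + (1 - ρ) ≤ Real.exp (3 / 4 * A * (ρ * (1 / v i))) := by
          intro i hi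
          have hvi := hv0 i hi
          have hAv := hv i hi
          have hu0 : 0 ≤ A / 2 / v i := by positivity
          have hu1 : A / 2 / v i ≤ 1 / 2 := by
            rw [div_le_iff₀ hvi]; linarith
          have h14 := exp_le_quad hu0 (by linarith)
          have h15 : (A / 2 / v i) ^ 2 ≤ 1 / 2 * (A / 2 / v i) := by nlinarith
          have h16 : ρ * Real.exp (A / 2 / v i) + (1 - ρ) ≤ 1 + ρ * (3 / 2 * (A / 2 / v i)) := by nlinarith
          refine h16.trans ?_
          have h17 := Real.add_one_le_exp (3 / 4 * A * (ρ * (1 / (v i : ℝ))))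
          have e : ρ * (3 / 2 * (A / 2 / v i)) = 3 / 4 * A * (ρ * (1 / (v i : ℝ))) := by ring
          rw [e]; linarith
        calc ∏ i ∈ C, (ρ * Real.exp (A / 2 / v i) + (1 - ρ)) ≤ ∏ i ∈ C, Real.exp (3 / 4 * A * (ρ * (1 / v i))) := by
              refine Finset.prod_le_prod (fun i _ => ?_) h13
              have := Real.exp_pos (A / 2 / (v i : ℝ))
              have : 0 ≤ 1 - ρ := by linarith
              positivity
          _ = Real.exp (3 / 4 * A) := by
              rw [← Real.exp_sum, ← Finset.mul_sum, ← Finset.mul_sum, hsum, mul_one]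
      calc _ ≤ Real.exp (-A) * ∏ i ∈ C, (ρ * Real.exp (A / 2 / v i) + (1 - ρ)) := h10
        _ ≤ Real.exp (-A) * Real.exp (3 / 4 * A) := mul_le_mul_of_nonneg_left h12 (Real.exp_pos _).le
        _ = Real.exp (-(A / 4)) := by rw [← Real.exp_add]; congr 1; ring
    have hne : ∅ ∉ C.powerset.filter (fun S => 2 ≤ ∑ i ∈ S, (1 : ℝ) / v i) := by
      rw [Finset.mem_filter]
      rintro ⟨-, h⟩
      rw [Finset.sum_empty] at h
      norm_num at h
    rw [Finset.sum_insert hne]
    linarith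
  -- lower bound
  have hlow : 3 / 4 ≤ ∑ h ∈ range P, (F h).re := by
    have hF0 : (F 0).re = 1 := by
      rw [hFdef]
      simp only
      have : ∀ i ∈ C, fac ρ (((0 : ℕ) : ℝ) / v i) = 1 := by
        intro i _
        unfold fac
        simp
      rw [Finset.prod_congr rfl this]
      simp
    have hsmall : ∀ h : ℕ, h < h₁ → 0 ≤ (F h).re := by
      intro h hlt
      have hlt' : (h : ℝ) ≤ h₁ := by exact_mod_cast hlt.le
      have e : F h = ∏ i ∈ C, gac ρ ((h : ℝ) / v i) := by
        rw [hFdef]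
        simp only
        unfold gac
        rw [Finset.prod_mul_distrib, ← Complex.exp_sum, ← Finset.sum_mul]
        have e2 : ((∑ i ∈ C, (((-(2 * Real.pi * (ρ * ((h : ℝ) / v i))) : ℝ)) : ℂ)) * Complex.I) =
            -((h : ℤ) * (2 * Real.pi * Complex.I)) := by
          have e3 : ∑ i ∈ C, (-(2 * Real.pi * (ρ * ((h : ℝ) / v i)))) = -(2 * Real.pi * h) := by
            rw [Finset.sum_neg_distrib]
            congr 1
            calc ∑ i ∈ C, 2 * Real.pi * (ρ * ((h : ℝ) / v i)) = 2 * Real.pi * h * (ρ * ∑ i ∈ C, (1 : ℝ) / v i) := by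
                  rw [Finset.mul_sum, Finset.mul_sum]
                  exact Finset.sum_congr rfl fun i _ => by ring
              _ = 2 * Real.pi * h := by rw [hsum, mul_one]
          rw [← Complex.ofReal_sum, e3]
          push_cast; ring
        rw [e2, Complex.exp_neg, Complex.exp_int_mul_two_pi_mul_I]
        simp
      rw [e]
      apply re_prod_nonneg
      have hb : ∀ i ∈ C, |(gac ρ ((h : ℝ) / v i)).arg| ≤ 400 * (h₁ : ℝ) ^ 3 / A ^ 2 * (ρ * (1 / v i)) := by
        intro i hi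
        have hvi := hv0 i hi
        have hAv := hv i hi
        have habs : |(h : ℝ) / v i| = h / v i := abs_of_nonneg (by positivity)
        have h20 : |(h : ℝ) / v i| ≤ 1 / 10 := by
          rw [habs, div_le_iff₀ hvi]
          linarith
        refine (abs_arg_gac_le ρ _ hρ0.le hρ1 h20).trans ?_
        rw [habs]
        have h21 : ((h : ℝ) / v i) ^ 3 ≤ (h₁ : ℝ) ^ 3 / A ^ 2 * (1 / v i) := by
          rw [div_pow, div_mul_div_comm, mul_one]
          have hA0 : (0:ℝ) < A := by linarith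
          apply div_le_div₀ (by positivity) (by gcongr) (by positivity)
          calc A ^ 2 * (v i : ℝ) ≤ (v i : ℝ) ^ 2 * v i := by gcongr
            _ = (v i : ℝ) ^ 3 := by ring
        calc 400 * ρ * ((h : ℝ) / v i) ^ 3 ≤ 400 * ρ * ((h₁ : ℝ) ^ 3 / A ^ 2 * (1 / v i)) :=
              mul_le_mul_of_nonneg_left h21 (by positivity)
          _ = _ := by ring
      calc ∑ i ∈ C, |(gac ρ ((h : ℝ) / v i)).arg| ≤ ∑ i ∈ C, 400 * (h₁ : ℝ) ^ 3 / A ^ 2 * (ρ * (1 / v i)) :=
            Finset.sum_le_sum hb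
        _ = 400 * (h₁ : ℝ) ^ 3 / A ^ 2 := by rw [← Finset.mul_sum, ← Finset.mul_sum, hsum, mul_one]
        _ ≤ 1 := by rw [div_le_one (by positivity)]; exact hh3
        _ ≤ Real.pi / 2 := by have := Real.pi_gt_three; linarith
    have hall : ∀ h ∈ range P, h ≠ 0 → -(1 / (4 * (P : ℝ))) ≤ (F h).re := by
      intro h hh' hne
      rw [Finset.mem_range] at hh'
      by_cases h1 : h < h₁
      · have := hsmall h h1
        have : 0 ≤ 1 / (4 * (P : ℝ)) := by positivity
        linarith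
      push Not at h1
      by_cases h2 : h + h₁ ≤ P
      · have h3 := hF h h1 h2
        have h4 : ‖F h‖ ≤ 1 / (4 * (P : ℝ)) := by
          rw [hFdef]
          simp only
          rw [norm_prod]
          exact h3
        have h5 := (abs_le.1 (Complex.abs_re_le_norm (F h))).1
        linarith
      · push Not at h2
        have h3 : P - h < h₁ := by omega
        have h4 := hsmall (P - h) h3
        have h5 : F h = (starRingEnd ℂ) (F (P - h)) := by
          rw [hFdef]
          simp only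
          rw [map_prod]
          refine Finset.prod_congr rfl fun i hi => ?_
          rw [← fac_neg]
          have hd := hP i hi
          rw [← fac_add_int ρ ((h : ℝ) / v i) ((P / v i : ℕ) : ℤ)]
          congr 1
          rw [Int.cast_natCast, Nat.cast_sub hh'.le, Nat.cast_div hd (hv0 i hi).ne']
          ring
        rw [h5, Complex.conj_re]
        have : 0 ≤ 1 / (4 * (P : ℝ)) := by positivity
        linarith
    have h0 : 0 ∈ range P := Finset.mem_range.2 hP0
    rw [← Finset.add_sum_erase _ _ h0, hF0]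
    have h6 : ∑ h ∈ (range P).erase 0, (-(1 / (4 * (P : ℝ)))) ≤ ∑ h ∈ (range P).erase 0, (F h).re := by
      refine Finset.sum_le_sum fun h hh' => ?_
      rw [Finset.mem_erase] at hh'
      exact hall h hh'.2 hh'.1
    rw [Finset.sum_const, Finset.card_erase_of_mem h0, Finset.card_range, nsmul_eq_mul] at h6
    have h7 : ((P - 1 : ℕ) : ℝ) * (-(1 / (4 * (P : ℝ)))) ≥ -(1 / 4) := by
      rw [Nat.cast_sub hP0]
      have : (((P : ℝ) - (1 : ℕ)) * (-(1 / (4 * (P : ℝ))))) = -(1/4) + 1 / (4 * P) := by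
        field_simp; push_cast; ring
      rw [this]
      have : 0 ≤ 1 / (4 * (P : ℝ)) := by positivity
      linarith
    linarith
  -- contradiction
  have h1 := hlow.trans (hup.trans (mul_le_mul_of_nonneg_left htail hPR.le))
  have h2 : (P : ℝ) * (2 * Real.exp (-(A / 4))) ≤ 1 / 4 := by
    rw [Real.exp_neg]
    have he := Real.exp_pos (A / 4)
    rw [← mul_assoc, ← div_eq_mul_inv, div_le_iff₀ he]
    linarith
  linarith

end Pool.Agent.Zk43.HC
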