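import Mathlib

/-!
# Common multiples in short intervals
-/

set_option autoImplicit false

namespace Pool.Agent.Zk43.HC

open Finset

/-- Sums of reciprocals of squarefree numbers composed of given primes. -/
lemma sum_inv_le_prod (W Q : Finset ℕ) (hW : ∀ a ∈ W, Squarefree a ∧ a.primeFactors ⊆ Q) :
    ∑ a ∈ W, (1 : ℝ) / a ≤ ∏ q ∈ Q, (1 + (1 : ℝ) / q) := by
  rw [Finset.prod_one_add]
  have h1 : ∀ a ∈ W, (1 : ℝ) / a = ∏ q ∈ a.primeFactors, (1 : ℝ) / q := by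
    intro a ha
    have h := Nat.prod_primeFactors_of_squarefree (hW a ha).1
    conv_lhs => rw [← h]
    push_cast
    rw [Finset.prod_div_distrib]
    simp
  have hinj : Set.InjOn Nat.primeFactors (W : Set ℕ) := by
    intro a ha b hb hab
    rw [← Nat.prod_primeFactors_of_squarefree (hW a ha).1, hab,
      Nat.prod_primeFactors_of_squarefree (hW b hb).1]
  calc ∑ a ∈ W, (1 : ℝ) / a = ∑ a ∈ W, ∏ q ∈ a.primeFactors, (1 : ℝ) / q := Finset.sum_congr rfl h1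
    _ = ∑ S ∈ W.image Nat.primeFactors, ∏ q ∈ S, (1 : ℝ) / q := (Finset.sum_image (f := fun S : Finset ℕ => ∏ q ∈ S, (1 : ℝ) / (q : ℝ)) hinj).symm
    _ ≤ ∑ S ∈ Q.powerset, ∏ q ∈ S, (1 : ℝ) / q := by
        refine Finset.sum_le_sum_of_subset_of_nonneg ?_ fun S _ _ => Finset.prod_nonneg fun q _ => by positivity
        intro S hS
        rw [Finset.mem_image] at hS
        obtain ⟨a, ha, rfl⟩ := hS
        exact Finset.mem_powerset.2 (hW a ha).2

lemma prod_le_exp (Q : Finset ℕ) : ∏ q ∈ Q, (1 + (1 : ℝ) / q) ≤ Real.exp (∑ q ∈ Q, (1 : ℝ) / q) := by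
  rw [Real.exp_sum]
  refine Finset.prod_le_prod (fun q _ => by positivity) fun q _ => ?_
  have := Real.add_one_le_exp ((1 : ℝ) / q)
  linarith

lemma sum_inv_mult_le (W Q : Finset ℕ) (hW : ∀ a ∈ W, Squarefree a ∧ a.primeFactors ⊆ Q) (p : ℕ) (hp : p.Prime) :
    ∑ a ∈ W.filter (fun a => p ∣ a), (1 : ℝ) / a ≤ (∏ q ∈ Q, (1 + (1 : ℝ) / q)) / p := by
  have hp0 : (0 : ℝ) < p := by exact_mod_cast hp.pos
  have h1 : ∀ a ∈ W.filter (fun a => p ∣ a), (1 : ℝ) / a = 1 / p * (1 / ((a / p : ℕ) : ℝ)) := by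
    intro a ha
    rw [Finset.mem_filter] at ha
    obtain ⟨ha, b, rfl⟩ := ha
    rw [Nat.mul_div_cancel_left b hp.pos]
    push_cast
    field_simp
  have hinj : Set.InjOn (fun a => a / p) ((W.filter (fun a => p ∣ a) : Finset ℕ) : Set ℕ) := by
    intro a ha b hb hab
    rw [Finset.mem_coe, Finset.mem_filter] at ha hb
    obtain ⟨_, a', rfl⟩ := ha
    obtain ⟨_, b', rfl⟩ := hb
    simp only [Nat.mul_div_cancel_left _ hp.pos] at hab
    rw [hab]
  rw [Finset.sum_congr rfl h1, ← Finset.mul_sum]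
  have h2 : ∑ a ∈ W.filter (fun a => p ∣ a), (1 : ℝ) / ((a / p : ℕ) : ℝ) ≤ ∏ q ∈ Q, (1 + (1 : ℝ) / q) := by
    rw [← Finset.sum_image (f := fun a : ℕ => (1 : ℝ) / (a : ℝ)) hinj]
    apply sum_inv_le_prod
    intro c hc
    rw [Finset.mem_image] at hc
    obtain ⟨a, ha, rfl⟩ := hc
    rw [Finset.mem_filter] at ha
    have hdvd : a / p ∣ a := Nat.div_dvd_of_dvd ha.2
    have ha0 : a ≠ 0 := (hW a ha.1).1.ne_zero
    exact ⟨(hW a ha.1).1.squarefree_of_dvd hdvd, (Nat.primeFactors_mono hdvd ha0).trans (hW a ha.1).2⟩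
  calc 1 / (p : ℝ) * _ ≤ 1 / (p : ℝ) * (∏ q ∈ Q, (1 + (1 : ℝ) / q)) := mul_le_mul_of_nonneg_left h2 (by positivity)
    _ = _ := by ring

/-- the pair `x` has a multiple of its product near `h` -/
def Near (h : ℤ) (w : ℕ) (x : ℕ × ℕ) : Prop := ∃ X : ℤ, |X - h| < w ∧ ((x.1 * x.2 : ℕ) : ℤ) ∣ X

/-- the reciprocal sum of the divisors from `B` -/
noncomputable def EE (B : Finset ℕ) (X : ℤ) : ℝ := ∑ b ∈ B.filter (fun b : ℕ => (b : ℤ) ∣ X), (1 : ℝ) / (b : ℝ)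

open Classical in
lemma rich_multiple (A B : Finset ℕ) (C : Finset (ℕ × ℕ)) (hC : C ⊆ A ×ˢ B) (U κ : ℝ) (hU : 0 < U) (hκ : 0 < κ)
    (h : ℤ) (w : ℕ) (hA : ∀ a ∈ A, 2 * w ≤ a) (hB : ∀ b ∈ B, ∀ c, c ∣ b → c ∈ B) (p : ℕ) (hp : p.Prime)
    (hU1 : ∑ a ∈ A, (1 : ℝ) / a ≤ U) (hU2 : ∑ a ∈ A.filter (fun a => p ∣ a), (1 : ℝ) / a ≤ U / p)
    (hmass : κ / (2 * p) ≤ ∑ x ∈ C.filter (fun x => p ∣ x.1 * x.2 ∧ Near h w x), (1 : ℝ) / ((x.1 : ℝ) * x.2)) :
    ∃ X : ℤ, |X - h| < w ∧ (p : ℤ) ∣ X ∧ κ / (8 * U) ≤ EE B X := by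
  by_contra hno
  push Not at hno
  have hp0 : (0 : ℝ) < p := by exact_mod_cast hp.pos
  set τ : ℝ := κ / (8 * U) with hτ
  have hτ0 : 0 < τ := by positivity
  -- the sum over the fibre of `a`
  have hfib : ∀ a ∈ A, ∑ x ∈ (C.filter (fun x => p ∣ x.1 * x.2 ∧ Near h w x)).filter (fun x => x.1 = a),
      (1 : ℝ) / ((x.1 : ℝ) * x.2) ≤ (if p ∣ a then 1 / (a : ℝ) * τ else 0) + 1 / (a : ℝ) * (τ / p) := by
    intro a ha
    set G := (C.filter (fun x => p ∣ x.1 * x.2 ∧ Near h w x)).filter (fun x => x.1 = a) with hG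
    have hnn : 0 ≤ (if p ∣ a then 1 / (a : ℝ) * τ else 0) := by split_ifs <;> positivity
    rcases G.eq_empty_or_nonempty with hGe | ⟨x₀, hx₀⟩
    · rw [hGe, Finset.sum_empty]
      positivity
    -- the common multiple
    have hmem : ∀ x ∈ G, x ∈ C ∧ p ∣ x.1 * x.2 ∧ Near h w x ∧ x.1 = a := by
      intro x hx
      rw [hG, Finset.mem_filter, Finset.mem_filter] at hx
      exact ⟨hx.1.1, hx.1.2.1, hx.1.2.2, hx.2⟩
    obtain ⟨h1, h2, ⟨X₀, hX₀, hd₀⟩, h4⟩ := hmem x₀ hx₀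
    have ha2 := hA a ha
    have hall : ∀ x ∈ G, ((x.1 * x.2 : ℕ) : ℤ) ∣ X₀ := by
      intro x hx
      obtain ⟨g1, g2, ⟨X, hX, hd⟩, g4⟩ := hmem x hx
      have e1 : (a : ℤ) ∣ X := by
        refine dvd_trans ?_ hd
        rw [g4]; push_cast; exact Dvd.intro _ rfl
      have e2 : (a : ℤ) ∣ X₀ := by
        refine dvd_trans ?_ hd₀
        rw [h4]; push_cast; exact Dvd.intro _ rfl
      have e3 : (a : ℤ) ∣ X - X₀ := dvd_sub e1 e2
      have e4 : |X - X₀| < a := by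
        have : |X - X₀| ≤ |X - h| + |X₀ - h| := by
          have := abs_sub (X - h) (X₀ - h)
          rwa [sub_sub_sub_cancel_right] at this
        have : (2 * w : ℤ) ≤ a := by exact_mod_cast ha2
        linarith
      have e5 : X - X₀ = 0 := Int.eq_zero_of_abs_lt_dvd e3 e4
      have e6 : X = X₀ := by linarith
      rw [← e6]; exact hd
    have hpX : (p : ℤ) ∣ X₀ := by
      refine dvd_trans ?_ hd₀
      exact_mod_cast h2
    have hE := hno X₀ hX₀ hpX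
    have hbnd : ∀ x ∈ G, x.2 ∈ B ∧ (x.2 : ℤ) ∣ X₀ := by
      intro x hx
      obtain ⟨g1, g2, g3, g4⟩ := hmem x hx
      refine ⟨(Finset.mem_product.1 (hC g1)).2, dvd_trans ?_ (hall x hx)⟩
      push_cast; exact Dvd.intro_left _ rfl
    have hinj : Set.InjOn Prod.snd (G : Set (ℕ × ℕ)) := by
      intro x hx y hy hxy
      have gx := (hmem x hx).2.2.2
      have gy := (hmem y hy).2.2.2
      exact Prod.ext (gx.trans gy.symm) hxy
    have hsplit : ∑ x ∈ G, (1 : ℝ) / ((x.1 : ℝ) * x.2) = 1 / (a : ℝ) * ∑ x ∈ G, (1 : ℝ) / (x.2 : ℝ) := by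
      rw [Finset.mul_sum]
      refine Finset.sum_congr rfl fun x hx => ?_
      rw [(hmem x hx).2.2.2]
      ring
    rw [hsplit]
    by_cases hpa : p ∣ a
    · rw [if_pos hpa]
      have h5 : ∑ x ∈ G, (1 : ℝ) / (x.2 : ℝ) ≤ EE B X₀ := by
        unfold EE
        rw [← Finset.sum_image (f := fun b : ℕ => (1 : ℝ) / (b : ℝ)) hinj]
        refine Finset.sum_le_sum_of_subset_of_nonneg (fun b hb => ?_) (fun b _ _ => one_div_nonneg.2 (Nat.cast_nonneg b))
        rw [Finset.mem_image] at hb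
        obtain ⟨x, hx, rfl⟩ := hb
        rw [Finset.mem_filter]
        exact hbnd x hx
      have h6 : 1 / (a : ℝ) * ∑ x ∈ G, (1 : ℝ) / (x.2 : ℝ) ≤ 1 / (a : ℝ) * τ :=
        mul_le_mul_of_nonneg_left (h5.trans hE.le) (by positivity)
      have : 0 ≤ 1 / (a : ℝ) * (τ / p) := by positivity
      linarith
    · rw [if_neg hpa, zero_add]
      refine mul_le_mul_of_nonneg_left ?_ (by positivity)
      have hpb : ∀ x ∈ G, p ∣ x.2 := by
        intro x hx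
        obtain ⟨g1, g2, g3, g4⟩ := hmem x hx
        rcases (Nat.Prime.dvd_mul hp).1 g2 with h | h
        · rw [g4] at h; exact absurd h hpa
        · exact h
      have h7 : ∑ x ∈ G, (1 : ℝ) / (x.2 : ℝ) = 1 / p * ∑ x ∈ G, (1 : ℝ) / ((x.2 / p : ℕ) : ℝ) := by
        rw [Finset.mul_sum]
        refine Finset.sum_congr rfl fun x hx => ?_
        obtain ⟨c, hc⟩ := hpb x hx
        rw [hc, Nat.mul_div_cancel_left c hp.pos]
        push_cast
        field_simp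
      have hinj2 : Set.InjOn (fun x : ℕ × ℕ => x.2 / p) (G : Set (ℕ × ℕ)) := by
        intro x hx y hy hxy
        apply hinj hx hy
        obtain ⟨c, hc⟩ := hpb x hx
        obtain ⟨d, hd⟩ := hpb y hy
        simp only [hc, hd, Nat.mul_div_cancel_left _ hp.pos] at hxy
        rw [hc, hd, hxy]
      have h8 : ∑ x ∈ G, (1 : ℝ) / ((x.2 / p : ℕ) : ℝ) ≤ EE B X₀ := by
        unfold EE
        rw [← Finset.sum_image (f := fun b : ℕ => (1 : ℝ) / (b : ℝ)) hinj2]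
        refine Finset.sum_le_sum_of_subset_of_nonneg (fun b hb => ?_) (fun b _ _ => one_div_nonneg.2 (Nat.cast_nonneg b))
        rw [Finset.mem_image] at hb
        obtain ⟨x, hx, rfl⟩ := hb
        rw [Finset.mem_filter]
        have hd1 : x.2 / p ∣ x.2 := Nat.div_dvd_of_dvd (hpb x hx)
        refine ⟨hB _ (hbnd x hx).1 _ hd1, dvd_trans ?_ (hbnd x hx).2⟩
        exact_mod_cast hd1
      rw [h7]
      calc 1 / (p : ℝ) * _ ≤ 1 / (p : ℝ) * τ := mul_le_mul_of_nonneg_left (h8.trans hE.le) (by positivity)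
        _ = τ / p := by ring
  -- sum over `a`
  have htot : ∑ x ∈ C.filter (fun x => p ∣ x.1 * x.2 ∧ Near h w x), (1 : ℝ) / ((x.1 : ℝ) * x.2) ≤
      ∑ a ∈ A, ((if p ∣ a then 1 / (a : ℝ) * τ else 0) + 1 / (a : ℝ) * (τ / p)) := by
    rw [← Finset.sum_fiberwise_of_maps_to (s := C.filter (fun x => p ∣ x.1 * x.2 ∧ Near h w x)) (t := A)
      (g := fun x => x.1) (f := fun x => (1 : ℝ) / ((x.1 : ℝ) * x.2))
      (fun x hx => (Finset.mem_product.1 (hC (Finset.mem_filter.1 hx).1)).1)]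
    exact Finset.sum_le_sum hfib
  rw [Finset.sum_add_distrib, ← Finset.sum_filter, ← Finset.sum_mul, ← Finset.sum_mul] at htot
  have h9 : (∑ a ∈ A.filter (fun a => p ∣ a), 1 / (a : ℝ)) * τ ≤ U / p * τ := mul_le_mul_of_nonneg_right hU2 hτ0.le
  have h10 : (∑ a ∈ A, 1 / (a : ℝ)) * (τ / p) ≤ U * (τ / p) := mul_le_mul_of_nonneg_right hU1 (by positivity)
  have h11 : κ / (2 * p) ≤ U / p * τ + U * (τ / p) := by linarith
  have h12 : U / p * τ + U * (τ / p) = κ / (4 * p) := by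
    rw [hτ]; field_simp; ring
  rw [h12] at h11
  have h13 : κ / (4 * p) < κ / (2 * p) := by
    apply div_lt_div_of_pos_left hκ (by positivity) (by linarith)
  linarith

end Pool.Agent.Zk43.HC
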