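import Pool.Agent.Zk43.HC.N1

/-!
# Rich multiples in a short interval are unique
-/

set_option autoImplicit false

namespace Pool.Agent.Zk43.HC

open Finset

/-- primes up to `n` -/
abbrev PR (n : ℕ) : Finset ℕ := (Finset.Icc 1 n).filter Nat.Prime

/-- the sum of the reciprocals of the primes up to `n` -/
noncomputable def TT (n : ℕ) : ℝ := ∑ q ∈ PR n, (1 : ℝ) / q

/-- squarefree numbers up to `t` -/
def SF (t : ℕ) : Finset ℕ := (Finset.Icc 1 t).filter Squarefree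

lemma mem_PR {n q : ℕ} : q ∈ PR n ↔ q ≤ n ∧ q.Prime := by
  rw [Finset.mem_filter, Finset.mem_Icc]
  exact ⟨fun h => ⟨h.1.2, h.2⟩, fun h => ⟨⟨h.2.one_lt.le, h.1⟩, h.2⟩⟩

lemma EE_le (t : ℕ) (X : ℤ) : EE (SF t) X ≤ Real.exp (∑ q ∈ (PR t).filter (fun q : ℕ => (q : ℤ) ∣ X), (1 : ℝ) / q) := by
  refine le_trans ?_ (prod_le_exp _)
  unfold EE
  apply sum_inv_le_prod
  intro b hb
  rw [Finset.mem_filter, SF, Finset.mem_filter, Finset.mem_Icc] at hb
  refine ⟨hb.1.2, fun q hq => ?_⟩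
  rw [Nat.mem_primeFactors] at hq
  rw [Finset.mem_filter, mem_PR]
  refine ⟨⟨(Nat.le_of_dvd (by omega) hq.2.1).trans hb.1.1.2, hq.1⟩, dvd_trans ?_ hb.2⟩
  exact_mod_cast hq.2.1

lemma rich_unique (t m : ℕ) (X Y : ℤ) (τ : ℝ) (hτ : 0 < τ) (hX : τ ≤ EE (SF t) X) (hY : τ ≤ EE (SF t) Y)
    (hne : X ≠ Y) (hlt : |X - Y| < 2 ^ m) : 2 * Real.log τ ≤ TT t + TT m + 1 := by
  set S₁ := (PR t).filter (fun q : ℕ => (q : ℤ) ∣ X) with hS₁
  set S₂ := (PR t).filter (fun q : ℕ => (q : ℤ) ∣ Y) with hS₂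
  have h1 : Real.log τ ≤ ∑ q ∈ S₁, (1 : ℝ) / q := by
    rw [Real.log_le_iff_le_exp hτ]
    exact hX.trans (EE_le t X)
  have h2 : Real.log τ ≤ ∑ q ∈ S₂, (1 : ℝ) / q := by
    rw [Real.log_le_iff_le_exp hτ]
    exact hY.trans (EE_le t Y)
  have h3 := Finset.sum_union_inter (s₁ := S₁) (s₂ := S₂) (f := fun q : ℕ => (1 : ℝ) / (q : ℝ))
  have h4 : ∑ q ∈ S₁ ∪ S₂, (1 : ℝ) / (q : ℝ) ≤ TT t := by
    unfold TT
    refine Finset.sum_le_sum_of_subset_of_nonneg ?_ (fun q _ _ => by positivity)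
    exact Finset.union_subset (Finset.filter_subset _ _) (Finset.filter_subset _ _)
  set I := S₁ ∩ S₂ with hI
  have hIprime : ∀ q ∈ I, q.Prime := by
    intro q hq
    rw [hI, Finset.mem_inter, hS₁, Finset.mem_filter, mem_PR] at hq
    exact hq.1.1.2
  have hdvd : ∏ q ∈ I, q ∣ (X - Y).natAbs := by
    apply Finset.prod_primes_dvd
    · intro q hq; exact (hIprime q hq).prime
    · intro q hq
      have hq2 := Finset.mem_inter.1 hq
      have : (q : ℤ) ∣ X - Y := dvd_sub (Finset.mem_filter.1 hq2.1).2 (Finset.mem_filter.1 hq2.2).2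
      exact Int.natCast_dvd.1 this
  have hne0 : 0 < (X - Y).natAbs := Int.natAbs_pos.2 (sub_ne_zero.2 hne)
  have hcard : I.card < m := by
    have h5 : 2 ^ I.card ≤ ∏ q ∈ I, q := by
      rw [← Finset.prod_const]
      exact Finset.prod_le_prod' fun q hq => (hIprime q hq).two_le
    have h6 : ∏ q ∈ I, q ≤ (X - Y).natAbs := Nat.le_of_dvd hne0 hdvd
    have h7 : (X - Y).natAbs < 2 ^ m := by
      have : ((X - Y).natAbs : ℤ) < 2 ^ m := by rw [Int.natCast_natAbs]; exact hlt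
      exact_mod_cast this
    exact (Nat.pow_lt_pow_iff_right (by norm_num)).1 ((h5.trans h6).trans_lt h7)
  have h8 : ∑ q ∈ I, (1 : ℝ) / (q : ℝ) ≤ TT m + 1 := by
    rw [← Finset.sum_filter_add_sum_filter_not I (fun q => q ≤ m)]
    have h9 : ∑ q ∈ I.filter (fun q => q ≤ m), (1 : ℝ) / (q : ℝ) ≤ TT m := by
      unfold TT
      refine Finset.sum_le_sum_of_subset_of_nonneg (fun q hq => ?_) (fun q _ _ => by positivity)
      rw [Finset.mem_filter] at hq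
      exact mem_PR.2 ⟨hq.2, hIprime q hq.1⟩
    have hm0 : (0 : ℝ) < m := by
      have : 0 < m := by omega
      exact_mod_cast this
    have h10 : ∑ q ∈ I.filter (fun q => ¬ q ≤ m), (1 : ℝ) / (q : ℝ) ≤ 1 := by
      calc ∑ q ∈ I.filter (fun q => ¬ q ≤ m), (1 : ℝ) / (q : ℝ) ≤ ∑ _q ∈ I.filter (fun q => ¬ q ≤ m), (1 : ℝ) / m := by
            refine Finset.sum_le_sum fun q hq => ?_
            rw [Finset.mem_filter] at hq
            have : (m : ℝ) ≤ q := by exact_mod_cast (not_le.1 hq.2).le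
            exact one_div_le_one_div_of_le hm0 this
        _ = (I.filter (fun q => ¬ q ≤ m)).card * (1 / m : ℝ) := by rw [Finset.sum_const, nsmul_eq_mul]
        _ ≤ m * (1 / m : ℝ) := by
            refine mul_le_mul_of_nonneg_right ?_ (by positivity)
            exact_mod_cast (Finset.card_filter_le _ _).trans hcard.le
        _ = 1 := by field_simp
    linarith
  linarith

open Classical in
/-- If for all active primes many pairs have a multiple near `h`, there is a common multiple of the active primes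
near `h`. -/
lemma common_multiple (A : Finset ℕ) (t m : ℕ) (C : Finset (ℕ × ℕ)) (hC : C ⊆ A ×ˢ SF t) (U κ : ℝ) (hU : 0 < U)
    (hκ : 0 < κ) (h : ℤ) (w : ℕ) (hw : 0 < w) (hA : ∀ a ∈ A, 2 * w ≤ a) (hwm : 2 * w ≤ 2 ^ m)
    (hU1 : ∑ a ∈ A, (1 : ℝ) / a ≤ U) (hU2 : ∀ p : ℕ, p.Prime → ∑ a ∈ A.filter (fun a => p ∣ a), (1 : ℝ) / a ≤ U / p)
    (hbig : TT t + TT m + 1 < 2 * Real.log (κ / (8 * U))) (Act : Finset ℕ) (hAct : ∀ p ∈ Act, p.Prime)
    (hmass : ∀ p ∈ Act, κ / (2 * p) ≤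
      ∑ x ∈ C.filter (fun x => p ∣ x.1 * x.2 ∧ Near h w x), (1 : ℝ) / ((x.1 : ℝ) * x.2)) :
    ∃ X : ℤ, |X - h| < w ∧ ((∏ p ∈ Act, p : ℕ) : ℤ) ∣ X := by
  have hB : ∀ b ∈ SF t, ∀ c, c ∣ b → c ∈ SF t := by
    intro b hb c hc
    rw [SF, Finset.mem_filter, Finset.mem_Icc] at hb ⊢
    have hb0 : 0 < b := by omega
    exact ⟨⟨Nat.pos_of_dvd_of_pos hc hb0, (Nat.le_of_dvd hb0 hc).trans hb.1.2⟩, hb.2.squarefree_of_dvd hc⟩
  have hrich : ∀ p ∈ Act, ∃ X : ℤ, |X - h| < w ∧ (p : ℤ) ∣ X ∧ κ / (8 * U) ≤ EE (SF t) X := fun p hp =>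
    rich_multiple A (SF t) C hC U κ hU hκ h w hA hB p (hAct p hp) hU1 (hU2 p (hAct p hp)) (hmass p hp)
  rcases Act.eq_empty_or_nonempty with he | ⟨p₀, hp₀⟩
  · refine ⟨h, ?_, ?_⟩
    · simpa using hw
    · rw [he]; simp
  obtain ⟨X, hX1, hX2, hX3⟩ := hrich p₀ hp₀
  refine ⟨X, hX1, ?_⟩
  have hall : ∀ p ∈ Act, (p : ℤ) ∣ X := by
    intro p hp
    obtain ⟨Y, hY1, hY2, hY3⟩ := hrich p hp
    by_cases hXY : X = Y
    · rw [hXY]; exact hY2
    exfalso
    have hlt : |X - Y| < 2 ^ m := by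
      have h1 : |X - Y| ≤ |X - h| + |Y - h| := by
        have := abs_sub (X - h) (Y - h)
        rwa [sub_sub_sub_cancel_right] at this
      have h2 : ((2 * w : ℕ) : ℤ) ≤ ((2 ^ m : ℕ) : ℤ) := by exact_mod_cast hwm
      push_cast at h2
      linarith
    have h3 := rich_unique t m X Y (κ / (8 * U)) (by positivity) hX3 hY3 hXY hlt
    linarith
  rw [Int.natCast_dvd]
  apply Finset.prod_primes_dvd
  · intro q hq; exact (hAct q hq).prime
  · intro q hq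
    exact Int.natCast_dvd.1 (hall q hq)

end Pool.Agent.Zk43.HC
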