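import Pool.Agent.Zk43.HC.N2
import Pool.Agent.Zk43.HC.F2

/-!
# Assembly at a fixed scale
-/

set_option autoImplicit false

namespace Pool.Agent.Zk43.HC

open Finset

open Classical in
lemma regularise {ι : Type*} (C₀ : Finset ι) (m : ι → ℝ) (Q : Finset ℕ) (rel : ℕ → ι → Prop)
    (κ : ℕ → ℝ) (hκ : ∀ q ∈ Q, 0 ≤ κ q) :
    ∃ C ⊆ C₀, ∑ i ∈ C₀, m i - ∑ q ∈ Q, κ q ≤ ∑ i ∈ C, m i ∧
      ∀ q ∈ Q, (∃ i ∈ C, rel q i) → κ q ≤ ∑ i ∈ C.filter (fun i => rel q i), m i := by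
  set Φ : Finset ι → ℝ := fun C => ∑ i ∈ C, m i - ∑ q ∈ Q.filter (fun q => ∃ i ∈ C, rel q i), κ q with hΦ
  obtain ⟨C, hC, hmax⟩ := Finset.exists_max_image C₀.powerset Φ ⟨C₀, Finset.mem_powerset_self C₀⟩
  rw [Finset.mem_powerset] at hC
  refine ⟨C, hC, ?_, ?_⟩
  · have h1 := hmax C₀ (Finset.mem_powerset_self C₀)
    simp only [hΦ] at h1
    have h2 : ∑ q ∈ Q.filter (fun q => ∃ i ∈ C₀, rel q i), κ q ≤ ∑ q ∈ Q, κ q :=
      Finset.sum_le_sum_of_subset_of_nonneg (Finset.filter_subset _ _) fun q hq _ => hκ q hq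
    have h3 : 0 ≤ ∑ q ∈ Q.filter (fun q => ∃ i ∈ C, rel q i), κ q :=
      Finset.sum_nonneg fun q hq => hκ q (Finset.mem_filter.1 hq).1
    linarith
  · intro q hq hact
    by_contra hlt
    push Not at hlt
    set C' := C.filter (fun i => ¬ rel q i) with hC'
    have h1 := hmax C' (Finset.mem_powerset.2 ((Finset.filter_subset _ _).trans hC))
    simp only [hΦ] at h1
    have h2 : ∑ i ∈ C.filter (fun i => rel q i), m i + ∑ i ∈ C', m i = ∑ i ∈ C, m i :=
      Finset.sum_filter_add_sum_filter_not C (fun i => rel q i) m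
    have h3 : Q.filter (fun q => ∃ i ∈ C', rel q i) ⊆ (Q.filter (fun q => ∃ i ∈ C, rel q i)).erase q := by
      intro p hp
      rw [Finset.mem_filter] at hp
      obtain ⟨hpQ, i, hi, hri⟩ := hp
      rw [hC', Finset.mem_filter] at hi
      rw [Finset.mem_erase, Finset.mem_filter]
      refine ⟨?_, hpQ, i, hi.1, hri⟩
      rintro rfl
      exact hi.2 hri
    have h4 : ∑ p ∈ Q.filter (fun q => ∃ i ∈ C', rel q i), κ p ≤
        ∑ p ∈ (Q.filter (fun q => ∃ i ∈ C, rel q i)).erase q, κ p :=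
      Finset.sum_le_sum_of_subset_of_nonneg h3 fun p hp _ =>
        hκ p (Finset.mem_filter.1 (Finset.mem_erase.1 hp).2).1
    have h5 : q ∈ Q.filter (fun q => ∃ i ∈ C, rel q i) := Finset.mem_filter.2 ⟨hq, hact⟩
    have h6 := Finset.sum_erase_add (Q.filter (fun q => ∃ i ∈ C, rel q i)) κ h5
    linarith

/-- the mass of a set of pairs -/
noncomputable def mass (C : Finset (ℕ × ℕ)) : ℝ := ∑ x ∈ C, (1 : ℝ) / ((x.1 : ℝ) * x.2)

lemma mass_nonneg (C : Finset (ℕ × ℕ)) : 0 ≤ mass C := Finset.sum_nonneg fun x _ => by positivity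

lemma mass_mono {C D : Finset (ℕ × ℕ)} (h : C ⊆ D) : mass C ≤ mass D :=
  Finset.sum_le_sum_of_subset_of_nonneg h fun x _ _ => by positivity

lemma four_P_le (y P : ℕ) (hy : 5 ≤ y) (hP : P ≤ 4 ^ y) : 4 * (P : ℝ) ≤ Real.exp (2 * y) := by
  have h1 : (4 : ℝ) * P ≤ 4 ^ (y + 1) := by
    rw [pow_succ, mul_comm]
    exact mul_le_mul_of_nonneg_right (by exact_mod_cast hP) (by norm_num)
  refine h1.trans ?_
  have h2 : (4 : ℝ) = Real.exp (Real.log 4) := (Real.exp_log (by norm_num)).symm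
  have h3 : Real.log 4 ≤ 1.4 := by
    rw [show (4 : ℝ) = 2 ^ 2 by norm_num, Real.log_pow]
    have := Real.log_two_lt_d9
    push_cast; linarith
  rw [h2, ← Real.exp_nat_mul, Real.exp_le_exp]
  push_cast
  have hy' : (5 : ℝ) ≤ y := by exact_mod_cast hy
  nlinarith

lemma abs_aux (a v m : ℝ) (hv : 0 < v) : |m * v - a| = |a / v - m| * v := by
  have h : a - m * v = (a / v - m) * v := by field_simp
  rw [abs_sub_comm, h, abs_mul, abs_of_pos hv]

open Classical in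
lemma scale_step (t r m : ℕ) (ht : 400 ≤ t) (hr : 1 ≤ r) (A : Finset ℕ)
    (hA : ∀ a ∈ A, Squarefree a ∧ t ^ 106 ≤ a ∧ a ≤ t ^ 110 ∧ ∀ p ∈ a.primeFactors, t < p ∧ p ≤ t ^ 29)
    (U : ℝ) (hU : 0 < U) (hU1 : ∑ a ∈ A, (1 : ℝ) / a ≤ U)
    (hU2 : ∀ p : ℕ, p.Prime → ∑ a ∈ A.filter (fun a => p ∣ a), (1 : ℝ) / a ≤ U / p)
    (hwm : 2 * t ^ 85 ≤ 2 ^ m)
    (hM : 4 * (r : ℝ) ≤ mass (A ×ˢ SF t))
    (hT : 2 * (r : ℝ) * (TT (t ^ 29) + 1) ≤ t)
    (hbig : TT t + TT m + 1 < 2 * Real.log (mass (A ×ˢ SF t) / (2 * r * (TT (t ^ 29) + 1)) / (8 * U)))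
    (C₀ : Finset (ℕ × ℕ)) (hC₀ : C₀ ⊆ A ×ˢ SF t) (hC₀M : mass (A ×ˢ SF t) / r ≤ mass C₀) :
    ∃ S ⊆ C₀, mass S = 1 := by
  set M := mass (A ×ˢ SF t) with hMdef
  have hr0 : (0 : ℝ) < r := by exact_mod_cast hr
  have hM0 : 0 < M := by
    have : (1 : ℝ) ≤ r := by exact_mod_cast hr
    linarith
  have hTT0 : 0 ≤ TT (t ^ 29) := Finset.sum_nonneg fun q _ => by positivity
  set κ : ℝ := M / (2 * r * (TT (t ^ 29) + 1)) with hκ
  have hκ0 : 0 < κ := by positivity
  have ht0 : 0 < t := by omega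
  have htR : (400 : ℝ) ≤ t := by exact_mod_cast ht
  have ht1 : (1 : ℝ) ≤ t := by linarith
  -- regularisation
  obtain ⟨C, hCC, hCm, hCreg⟩ := regularise C₀ (fun x => (1 : ℝ) / ((x.1 : ℝ) * x.2)) (PR (t ^ 29))
    (fun p x => p ∣ x.1 * x.2) (fun p => κ / p) (fun q _ => by positivity)
  have hCA : C ⊆ A ×ˢ SF t := hCC.trans hC₀
  have hκT : ∑ q ∈ PR (t ^ 29), κ / (q : ℝ) ≤ M / (2 * r) := by
    have e : ∑ q ∈ PR (t ^ 29), κ / (q : ℝ) = κ * TT (t ^ 29) := by
      unfold TT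
      rw [Finset.mul_sum]
      exact Finset.sum_congr rfl fun q _ => by ring
    rw [e, hκ, div_mul_eq_mul_div, div_le_div_iff₀ (by positivity) (by positivity)]
    have : M * TT (t ^ 29) ≤ M * (TT (t ^ 29) + 1) := by nlinarith
    nlinarith
  have hmassC : M / (2 * r) ≤ mass C := by
    have h1 : mass C₀ - ∑ q ∈ PR (t ^ 29), κ / (q : ℝ) ≤ mass C := hCm
    have h2 : M / r = M / (2 * r) + M / (2 * r) := by field_simp; ring
    linarith
  have hmassC2 : 2 ≤ mass C := by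
    refine le_trans ?_ hmassC
    rw [le_div_iff₀ (by positivity)]
    linarith
  have hmassCM : mass C ≤ M := mass_mono hCA
  set Act := (PR (t ^ 29)).filter (fun p => ∃ x ∈ C, p ∣ x.1 * x.2) with hAct
  set P := ∏ p ∈ Act, p with hPdef
  have hActp : ∀ p ∈ Act, p.Prime := fun p hp => (mem_PR.1 (Finset.mem_filter.1 hp).1).2
  have hP0 : 0 < P := Finset.prod_pos fun p hp => (hActp p hp).pos
  have hP4 : P ≤ 4 ^ (t ^ 29) := by
    refine le_trans ?_ (primorial_le_four_pow (t ^ 29))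
    unfold primorial
    refine Finset.prod_le_prod_of_subset_of_one_le' ?_ ?_
    · intro p hp
      have h1 := mem_PR.1 (Finset.mem_filter.1 hp).1
      simp only [Finset.mem_filter, Finset.mem_range]
      exact ⟨by omega, h1.2⟩
    · intro p hp _
      simp only [Finset.mem_filter] at hp
      exact hp.2.one_lt.le
  -- facts on the elements
  have hel : ∀ x ∈ C, 0 < x.2 ∧ x.2 ≤ t ∧ t ^ 106 ≤ x.1 * x.2 ∧ x.1 * x.2 ≤ t ^ 111 ∧ x.1 * x.2 ∣ P := by
    intro x hx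
    have hx2 := Finset.mem_product.1 (hCA hx)
    obtain ⟨ha1, ha2, ha3, ha4⟩ := hA x.1 hx2.1
    have hb := hx2.2
    rw [SF, Finset.mem_filter, Finset.mem_Icc] at hb
    have hb0 : 0 < x.2 := by omega
    refine ⟨hb0, hb.1.2, ha2.trans (Nat.le_mul_of_pos_right _ hb0), ?_, ?_⟩
    · calc x.1 * x.2 ≤ t ^ 110 * t := Nat.mul_le_mul ha3 hb.1.2
        _ = t ^ 111 := by ring
    · have hcop : Nat.Coprime x.1 x.2 := by
        rw [Nat.coprime_iff_gcd_eq_one]
        by_contra hg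
        obtain ⟨p, hp, hpd⟩ := Nat.exists_prime_and_dvd hg
        have h1 : p ∣ x.1 := hpd.trans (Nat.gcd_dvd_left _ _)
        have h2 : p ∣ x.2 := hpd.trans (Nat.gcd_dvd_right _ _)
        have h3 := (ha4 p (Nat.mem_primeFactors.2 ⟨hp, h1, ha1.ne_zero⟩)).1
        have h4 := Nat.le_of_dvd hb0 h2
        omega
      have hsq : Squarefree (x.1 * x.2) := (Nat.squarefree_mul hcop).2 ⟨ha1, hb.2⟩
      rw [← Nat.prod_primeFactors_of_squarefree hsq]
      apply Finset.prod_dvd_prod_of_subset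
      intro p hp
      rw [Nat.mem_primeFactors] at hp
      rw [hAct, Finset.mem_filter, mem_PR]
      refine ⟨⟨?_, hp.1⟩, x, hx, hp.2.1⟩
      rcases (Nat.Prime.dvd_mul hp.1).1 hp.2.1 with h | h
      · exact (ha4 p (Nat.mem_primeFactors.2 ⟨hp.1, h, ha1.ne_zero⟩)).2
      · refine (Nat.le_of_dvd hb0 h).trans (hb.1.2.trans ?_)
        exact Nat.le_self_pow (by norm_num) t
  set v : ℕ × ℕ → ℕ := fun x => x.1 * x.2 with hv
  have hvR : ∀ x : ℕ × ℕ, (1 : ℝ) / ((v x : ℕ) : ℝ) = 1 / ((x.1 : ℝ) * x.2) := fun x => by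
    rw [hv]; push_cast; ring
  have hmassv : ∀ D : Finset (ℕ × ℕ), ∑ x ∈ D, (1 : ℝ) / (v x : ℝ) = mass D := fun D =>
    Finset.sum_congr rfl fun x _ => hvR x
  set ρ : ℝ := 1 / mass C with hρ
  have hmC0 : 0 < mass C := by linarith
  have hρ0 : 0 < ρ := by positivity
  have hρ1 : ρ ≤ 1 / 2 := by rw [hρ]; exact one_div_le_one_div_of_le (by norm_num) hmassC2
  have hρm : ρ * mass C = 1 := by rw [hρ]; field_simp
  have hρκ : 1 / (t : ℝ) ≤ ρ * κ := by
    have h1 : 1 / M ≤ ρ := one_div_le_one_div_of_le hmC0 hmassCM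
    calc 1 / (t : ℝ) ≤ 1 / (2 * r * (TT (t ^ 29) + 1)) := one_div_le_one_div_of_le (by positivity) hT
      _ = 1 / M * κ := by rw [hκ]; field_simp
      _ ≤ ρ * κ := mul_le_mul_of_nonneg_right h1 hκ0.le
  have hy5 : 5 ≤ t ^ 29 := by
    have : t ≤ t ^ 29 := Nat.le_self_pow (by norm_num) t
    omega
  have h4P := four_P_le (t ^ 29) P hy5 hP4
  have hPR : (0 : ℝ) < P := by exact_mod_cast hP0
  have hvpos : ∀ x ∈ C, (0 : ℝ) < v x := by
    intro x hx
    have h1 := (hel x hx).2.2.1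
    have h2 : 0 < t ^ 106 := by positivity
    exact_mod_cast lt_of_lt_of_le h2 h1
  have hvA : ∀ x ∈ C, (t : ℝ) ^ 106 ≤ v x := fun x hx => by exact_mod_cast (hel x hx).2.2.1
  have hvN : ∀ x ∈ C, (v x : ℝ) ≤ (t : ℝ) ^ 111 := fun x hx => by exact_mod_cast (hel x hx).2.2.2.1
  -- generic bound for the product
  have hprod : ∀ (D : Finset (ℕ × ℕ)) (h w : ℕ) (μ : ℝ), D ⊆ C →
      (∀ x ∈ D, ∃ n : ℤ, |(h : ℝ) / v x - n| ≤ 1 / 2 ∧ (w : ℝ) / v x ≤ |(h : ℝ) / v x - n|) →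
      2 * ((t ^ 29 : ℕ) : ℝ) ≤ 4 * ((w : ℝ) ^ 2 / (t : ℝ) ^ 111) * (ρ * mass D) →
      ∏ x ∈ C, ‖fac ρ ((h : ℝ) / v x)‖ ≤ 1 / (4 * P) := by
    intro D h w _ hD hn hmass
    have h1 : ∏ x ∈ C, ‖fac ρ ((h : ℝ) / v x)‖ ≤ ∏ x ∈ D, ‖fac ρ ((h : ℝ) / v x)‖ := by
      rw [← Finset.prod_sdiff hD]
      have h2 : ∏ x ∈ C \ D, ‖fac ρ ((h : ℝ) / v x)‖ ≤ 1 := by
        apply Finset.prod_le_one (fun x _ => norm_nonneg _)
        intro x _
        have h3 := norm_fac_le ρ ((h : ℝ) / v x) (round ((h : ℝ) / v x)) hρ0.le hρ1 (abs_sub_round _)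
        refine h3.trans ?_
        rw [Real.exp_le_one_iff]
        have : 0 ≤ 4 * ρ * ((h : ℝ) / v x - round ((h : ℝ) / v x)) ^ 2 := by positivity
        linarith
      have h4 : 0 ≤ ∏ x ∈ D, ‖fac ρ ((h : ℝ) / v x)‖ := Finset.prod_nonneg fun x _ => norm_nonneg _
      nlinarith
    have h5 : ∏ x ∈ D, ‖fac ρ ((h : ℝ) / v x)‖ ≤
        ∏ x ∈ D, Real.exp (-(4 * ((w : ℝ) ^ 2 / (t : ℝ) ^ 111) * (ρ * (1 / (v x : ℝ))))) := by
      refine Finset.prod_le_prod (fun x _ => norm_nonneg _) fun x hx => ?_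
      obtain ⟨n, hn1, hn2⟩ := hn x hx
      refine (norm_fac_le ρ _ n hρ0.le hρ1 hn1).trans ?_
      rw [Real.exp_le_exp]
      have hvx := hvpos x (hD hx)
      have hvx2 := hvN x (hD hx)
      have h6 : ((w : ℝ) / v x) ^ 2 ≤ ((h : ℝ) / v x - n) ^ 2 := by
        rw [← sq_abs ((h : ℝ) / v x - n)]
        exact pow_le_pow_left₀ (by positivity) hn2 2
      have h7 : (w : ℝ) ^ 2 / (t : ℝ) ^ 111 * (1 / (v x : ℝ)) ≤ ((w : ℝ) / v x) ^ 2 := by
        rw [div_pow, div_mul_div_comm, mul_one]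
        apply div_le_div_of_nonneg_left (by positivity) (by positivity)
        rw [sq]
        exact mul_le_mul_of_nonneg_right hvx2 hvx.le
      have h8 : ρ * ((w : ℝ) ^ 2 / (t : ℝ) ^ 111 * (1 / (v x : ℝ))) ≤ ρ * ((h : ℝ) / v x - n) ^ 2 :=
        mul_le_mul_of_nonneg_left (h7.trans h6) hρ0.le
      nlinarith
    rw [← Real.exp_sum, Finset.sum_neg_distrib, ← Finset.mul_sum, ← Finset.mul_sum, hmassv] at h5
    refine (h1.trans h5).trans ?_
    have h9 : Real.exp (-(4 * ((w : ℝ) ^ 2 / (t : ℝ) ^ 111) * (ρ * mass D))) ≤ Real.exp (-(2 * ((t ^ 29 : ℕ) : ℝ))) := by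
      rw [Real.exp_le_exp]; linarith
    refine h9.trans ?_
    rw [Real.exp_neg, ← one_div]
    exact one_div_le_one_div_of_le (by positivity) h4P
  have hw85 : ((t ^ 85 : ℕ) : ℝ) ^ 2 / (t : ℝ) ^ 111 = (t : ℝ) ^ 59 := by
    push_cast
    rw [div_eq_iff (by positivity)]
    ring
  have hw70 : ((t ^ 70 : ℕ) : ℝ) ^ 2 / (t : ℝ) ^ 111 = (t : ℝ) ^ 29 := by
    push_cast
    rw [div_eq_iff (by positivity)]
    ring
  obtain ⟨S, hS, hSsum⟩ := fourier_main C v ((t : ℝ) ^ 106) ρ P (t ^ 70) (one_le_pow₀ ht1) hvA hP0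
    (fun x hx => (hel x hx).2.2.2.2) hρ0 hρ1 (by rw [hmassv]; exact hρm)
    (by
      push_cast
      calc 10 * (t : ℝ) ^ 70 ≤ t ^ 1 * t ^ 70 := by
            rw [pow_one]; exact mul_le_mul_of_nonneg_right (by linarith) (by positivity)
        _ = (t : ℝ) ^ 71 := by ring
        _ ≤ (t : ℝ) ^ 106 := pow_le_pow_right₀ ht1 (by norm_num))
    (by
      push_cast
      calc 400 * ((t : ℝ) ^ 70) ^ 3 ≤ t * ((t : ℝ) ^ 70) ^ 3 := mul_le_mul_of_nonneg_right htR (by positivity)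
        _ = (t : ℝ) ^ 211 := by ring
        _ ≤ (t : ℝ) ^ 212 := pow_le_pow_right₀ ht1 (by norm_num)
        _ = ((t : ℝ) ^ 106) ^ 2 := by ring)
    (by
      have h1 : 8 * (P : ℝ) ≤ Real.exp (2 * ((t ^ 29 : ℕ) : ℝ) + 1) := by
        rw [Real.exp_add]
        have h2 := Real.add_one_le_exp (1 : ℝ)
        have h3 := Real.exp_pos (2 * ((t ^ 29 : ℕ) : ℝ))
        nlinarith
      refine h1.trans ?_
      rw [Real.exp_le_exp]
      push_cast
      have h2 : (1 : ℝ) ≤ (t : ℝ) ^ 29 := one_le_pow₀ ht1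
      have h3 : 12 * (t : ℝ) ^ 29 ≤ (t : ℝ) ^ 106 := by
        calc 12 * (t : ℝ) ^ 29 ≤ t * (t : ℝ) ^ 29 := mul_le_mul_of_nonneg_right (by linarith) (by positivity)
          _ = (t : ℝ) ^ 30 := by ring
          _ ≤ (t : ℝ) ^ 106 := pow_le_pow_right₀ ht1 (by norm_num)
      linarith)
    (Nat.one_le_pow _ _ ht0)
    (by
      intro h hh1 hh2
      have hh1R : ((t ^ 70 : ℕ) : ℝ) ≤ h := by exact_mod_cast hh1
      have hh2R : (h : ℝ) + ((t ^ 70 : ℕ) : ℝ) ≤ P := by exact_mod_cast hh2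
      have hw2 : 2 * ((t ^ 85 : ℕ) : ℝ) ≤ (t : ℝ) ^ 106 := by
        push_cast
        calc 2 * (t : ℝ) ^ 85 ≤ t * (t : ℝ) ^ 85 := mul_le_mul_of_nonneg_right (by linarith) (by positivity)
          _ = (t : ℝ) ^ 86 := by ring
          _ ≤ (t : ℝ) ^ 106 := pow_le_pow_right₀ ht1 (by norm_num)
      by_cases hA1 : h < t ^ 85
      · refine hprod C h (t ^ 70) 0 (Finset.Subset.refl _) ?_ ?_
        · intro x hx
          have hvx := hvpos x hx
          have hvx2 := hvA x hx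
          have hhR : (h : ℝ) ≤ ((t ^ 85 : ℕ) : ℝ) := by exact_mod_cast hA1.le
          refine ⟨0, ?_, ?_⟩
          · rw [Int.cast_zero, sub_zero, abs_of_nonneg (by positivity), div_le_iff₀ hvx]
            linarith
          · rw [Int.cast_zero, sub_zero, abs_of_nonneg (by positivity)]
            gcongr
        · rw [hw70, hρm]
          push_cast
          have : (0 : ℝ) ≤ (t : ℝ) ^ 29 := by positivity
          linarith
      push Not at hA1
      by_cases hA2 : P < h + t ^ 85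
      · refine hprod C h (t ^ 70) 0 (Finset.Subset.refl _) ?_ ?_
        · intro x hx
          have hvx := hvpos x hx
          have hvx2 := hvA x hx
          have hd := (hel x hx).2.2.2.2
          have hhR : (P : ℝ) ≤ h + ((t ^ 85 : ℕ) : ℝ) := by exact_mod_cast hA2.le
          have e : (h : ℝ) / v x - (((P / v x : ℕ) : ℤ) : ℝ) = -((P - h : ℝ) / v x) := by
            rw [Int.cast_natCast, Nat.cast_div hd hvx.ne']
            ring
          have hnn : (0 : ℝ) ≤ (P - h : ℝ) := by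
            have : (0 : ℝ) ≤ ((t ^ 70 : ℕ) : ℝ) := by positivity
            linarith
          refine ⟨((P / v x : ℕ) : ℤ), ?_, ?_⟩
          · rw [e, abs_neg, abs_of_nonneg (by positivity), div_le_iff₀ hvx]
            linarith
          · rw [e, abs_neg, abs_of_nonneg (by positivity)]
            gcongr
            linarith
        · rw [hw70, hρm]
          push_cast
          have : (0 : ℝ) ≤ (t : ℝ) ^ 29 := by positivity
          linarith
      push Not at hA2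
      -- the middle range
      have hex : ∃ p ∈ Act, ∑ x ∈ C.filter (fun x => p ∣ x.1 * x.2 ∧ Near (h : ℤ) (t ^ 85) x),
          (1 : ℝ) / ((x.1 : ℝ) * x.2) < κ / (2 * p) := by
        by_contra hno
        push Not at hno
        obtain ⟨X, hX1, hX2⟩ := common_multiple A t m C hCA U κ hU hκ0 (h : ℤ) (t ^ 85) (by positivity)
          (fun a ha => by
            have h1 := (hA a ha).2.1
            refine le_trans ?_ h1
            calc 2 * t ^ 85 ≤ t * t ^ 85 := Nat.mul_le_mul_right _ (by omega)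
              _ = t ^ 86 := by ring
              _ ≤ t ^ 106 := Nat.pow_le_pow_right ht0 (by norm_num)) hwm hU1 hU2 hbig Act hActp hno
        have h1 : 0 < X := by
          have := (abs_lt.1 hX1).1
          have h2 : ((t ^ 85 : ℕ) : ℤ) ≤ h := by exact_mod_cast hA1
          linarith
        have h2 : X < (P : ℤ) := by
          have := (abs_lt.1 hX1).2
          have h2 : (h : ℤ) + ((t ^ 85 : ℕ) : ℤ) ≤ P := by exact_mod_cast hA2
          linarith
        have h3 := Int.le_of_dvd h1 hX2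
        rw [← hPdef] at h3
        linarith
      obtain ⟨p, hp, hpm⟩ := hex
      have hpact := Finset.mem_filter.1 hp
      have hpprime := hActp p hp
      have hpR : (0 : ℝ) < p := by exact_mod_cast hpprime.pos
      have hreg := hCreg p hpact.1 hpact.2
      set D := C.filter (fun x => p ∣ x.1 * x.2 ∧ ¬ Near (h : ℤ) (t ^ 85) x) with hD
      have hDmass : κ / (2 * p) ≤ mass D := by
        have h1 := Finset.sum_filter_add_sum_filter_not (C.filter (fun x => p ∣ x.1 * x.2))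
          (fun x => Near (h : ℤ) (t ^ 85) x) (fun x => (1 : ℝ) / ((x.1 : ℝ) * x.2))
        rw [Finset.filter_filter, Finset.filter_filter] at h1
        have h2 : κ / p = κ / (2 * p) + κ / (2 * p) := by field_simp; ring
        have h3 : ∑ x ∈ C.filter (fun x => p ∣ x.1 * x.2 ∧ ¬ Near (h : ℤ) (t ^ 85) x),
          (1 : ℝ) / ((x.1 : ℝ) * x.2) = mass D := rfl
        rw [h3] at h1
        have h4 : ∑ x ∈ C.filter (fun x => p ∣ x.1 * x.2 ∧ Near (h : ℤ) (t ^ 85) x),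
            (1 : ℝ) / ((x.1 : ℝ) * x.2) + mass D =
            ∑ x ∈ C.filter (fun x => p ∣ x.1 * x.2), (1 : ℝ) / ((x.1 : ℝ) * x.2) := by
          convert h1
        have h5 : κ / p ≤ ∑ x ∈ C.filter (fun x => p ∣ x.1 * x.2), (1 : ℝ) / ((x.1 : ℝ) * x.2) := by
          convert hreg
        linarith
      refine hprod D h (t ^ 85) 0 (Finset.filter_subset _ _) ?_ ?_
      · intro x hx
        rw [hD, Finset.mem_filter] at hx
        have hvx := hvpos x hx.1
        refine ⟨round ((h : ℝ) / v x), abs_sub_round _, ?_⟩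
        by_contra hlt
        push Not at hlt
        apply hx.2.2
        refine ⟨round ((h : ℝ) / v x) * (v x : ℤ), ?_, Dvd.intro_left _ rfl⟩
        have h1 : |(h : ℝ) / v x - round ((h : ℝ) / v x)| * v x < ((t ^ 85 : ℕ) : ℝ) := by
          rwa [lt_div_iff₀ hvx] at hlt
        have h2 : |((round ((h : ℝ) / v x) * (v x : ℤ) - (h : ℤ) : ℤ) : ℝ)| =
            |(h : ℝ) / v x - round ((h : ℝ) / v x)| * v x := by
          rw [← abs_aux _ _ _ hvx]
          push_cast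
          rfl
        rw [← h2, ← Int.cast_abs] at h1
        exact_mod_cast h1
      · rw [hw85]
        have hp29 : (p : ℝ) ≤ (t : ℝ) ^ 29 := by exact_mod_cast (mem_PR.1 hpact.1).1
        have h1 : 1 / (t : ℝ) / (2 * (t : ℝ) ^ 29) ≤ ρ * mass D := by
          calc 1 / (t : ℝ) / (2 * (t : ℝ) ^ 29) ≤ ρ * κ / (2 * p) := by
                apply div_le_div₀ (by positivity) hρκ (by positivity)
                linarith
            _ = ρ * (κ / (2 * p)) := by ring
            _ ≤ ρ * mass D := mul_le_mul_of_nonneg_left hDmass hρ0.le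
        have h2 : 2 * (t : ℝ) ^ 29 ≤ 4 * (t : ℝ) ^ 59 * (1 / (t : ℝ) / (2 * (t : ℝ) ^ 29)) := by
          have e : 4 * (t : ℝ) ^ 59 * (1 / (t : ℝ) / (2 * (t : ℝ) ^ 29)) = 2 * (t : ℝ) ^ 29 := by
            field_simp
            ring
          rw [e]
        push_cast
        refine h2.trans (mul_le_mul_of_nonneg_left h1 (by positivity)))
  exact ⟨S, hS.trans hCC, by rw [← hmassv]; exact hSsum⟩

end Pool.Agent.Zk43.HC
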