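import Pool.Agent.Zk43.HC.N3
import Pool.Agent.Helper601.Mertens

/-!
# Masses
-/

set_option autoImplicit false

namespace Pool.Agent.Zk43.HC

open Finset Filter

/-- primes in `(t^i, t^(i+1)]` -/
def QQ (t i : ℕ) : Finset ℕ := (PR (t ^ (i + 1))).filter (fun q => t ^ i < q)

lemma mem_QQ {t i q : ℕ} : q ∈ QQ t i ↔ t ^ i < q ∧ q ≤ t ^ (i + 1) ∧ q.Prime := by
  rw [QQ, Finset.mem_filter, mem_PR]
  tauto

/-- index set of quadruples -/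
def QI (t : ℕ) : Finset ((ℕ × ℕ) × (ℕ × ℕ)) := (QQ t 25 ×ˢ QQ t 26) ×ˢ (QQ t 27 ×ˢ QQ t 28)

/-- the product of a quadruple -/
def qp (x : (ℕ × ℕ) × (ℕ × ℕ)) : ℕ := x.1.1 * x.1.2 * (x.2.1 * x.2.2)

/-- the set of the large parts -/
def AA (t : ℕ) : Finset ℕ := (QI t).image qp

lemma mem_QI {t : ℕ} {x : (ℕ × ℕ) × (ℕ × ℕ)} : x ∈ QI t ↔ (x.1.1 ∈ QQ t 25 ∧ x.1.2 ∈ QQ t 26) ∧
    (x.2.1 ∈ QQ t 27 ∧ x.2.2 ∈ QQ t 28) := by
  rw [QI, Finset.mem_product, Finset.mem_product, Finset.mem_product]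

lemma prime_dvd_qp {t p : ℕ} {x : (ℕ × ℕ) × (ℕ × ℕ)} (hx : x ∈ QI t) (hp : p.Prime) (h : p ∣ qp x) :
    p = x.1.1 ∨ p = x.1.2 ∨ p = x.2.1 ∨ p = x.2.2 := by
  rw [mem_QI] at hx
  obtain ⟨⟨h1, h2⟩, h3, h4⟩ := hx
  rw [mem_QQ] at h1 h2 h3 h4
  unfold qp at h
  rcases (Nat.Prime.dvd_mul hp).1 h with h | h
  · rcases (Nat.Prime.dvd_mul hp).1 h with h | h
    · exact Or.inl ((Nat.prime_dvd_prime_iff_eq hp h1.2.2).1 h)
    · exact Or.inr (Or.inl ((Nat.prime_dvd_prime_iff_eq hp h2.2.2).1 h))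
  · rcases (Nat.Prime.dvd_mul hp).1 h with h | h
    · exact Or.inr (Or.inr (Or.inl ((Nat.prime_dvd_prime_iff_eq hp h3.2.2).1 h)))
    · exact Or.inr (Or.inr (Or.inr ((Nat.prime_dvd_prime_iff_eq hp h4.2.2).1 h)))

lemma qp_injOn (t : ℕ) : Set.InjOn qp (QI t : Set ((ℕ × ℕ) × (ℕ × ℕ))) := by
  intro x hx y hy hxy
  rw [Finset.mem_coe] at hx hy
  have hx' := mem_QI.1 hx
  have hy' := mem_QI.1 hy
  obtain ⟨⟨h1, h2⟩, h3, h4⟩ := hx'
  obtain ⟨⟨g1, g2⟩, g3, g4⟩ := hy'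
  rw [mem_QQ] at h1 h2 h3 h4 g1 g2 g3 g4
  norm_num at h1 h2 h3 h4 g1 g2 g3 g4
  have d1 := prime_dvd_qp hy h1.2.2 (hxy ▸ (by unfold qp; exact Dvd.dvd.mul_right (Dvd.intro _ rfl) _))
  have d2 := prime_dvd_qp hy h2.2.2 (hxy ▸ (by unfold qp; exact Dvd.dvd.mul_right (Dvd.intro_left _ rfl) _))
  have d3 := prime_dvd_qp hy h3.2.2 (hxy ▸ (by unfold qp; exact Dvd.dvd.mul_left (Dvd.intro _ rfl) _))
  have d4 := prime_dvd_qp hy h4.2.2 (hxy ▸ (by unfold qp; exact Dvd.dvd.mul_left (Dvd.intro_left _ rfl) _))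
  have e1 : x.1.1 = y.1.1 := by rcases d1 with h | h | h | h <;> omega
  have e2 : x.1.2 = y.1.2 := by rcases d2 with h | h | h | h <;> omega
  have e3 : x.2.1 = y.2.1 := by rcases d3 with h | h | h | h <;> omega
  have e4 : x.2.2 = y.2.2 := by rcases d4 with h | h | h | h <;> omega
  exact Prod.ext (Prod.ext e1 e2) (Prod.ext e3 e4)

lemma AA_prop (t : ℕ) (ht : 1 ≤ t) : ∀ a ∈ AA t, Squarefree a ∧ t ^ 106 ≤ a ∧ a ≤ t ^ 110 ∧
    ∀ p ∈ a.primeFactors, t ^ 25 < p ∧ p ≤ t ^ 29 := by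
  intro a ha
  rw [AA, Finset.mem_image] at ha
  obtain ⟨x, hx, rfl⟩ := ha
  have hx' := mem_QI.1 hx
  obtain ⟨⟨h1, h2⟩, h3, h4⟩ := hx'
  rw [mem_QQ] at h1 h2 h3 h4
  norm_num at h1 h2 h3 h4
  have m1 : t ^ 25 ≤ t ^ 26 := Nat.pow_le_pow_right ht (by norm_num)
  have m2 : t ^ 26 ≤ t ^ 27 := Nat.pow_le_pow_right ht (by norm_num)
  have m3 : t ^ 27 ≤ t ^ 28 := Nat.pow_le_pow_right ht (by norm_num)
  have m4 : t ^ 28 ≤ t ^ 29 := Nat.pow_le_pow_right ht (by norm_num)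
  refine ⟨?_, ?_, ?_, ?_⟩
  · unfold qp
    have c12 : Nat.Coprime x.1.1 x.1.2 := (Nat.coprime_primes h1.2.2 h2.2.2).2 (by omega)
    have c34 : Nat.Coprime x.2.1 x.2.2 := (Nat.coprime_primes h3.2.2 h4.2.2).2 (by omega)
    have c13 : Nat.Coprime x.1.1 x.2.1 := (Nat.coprime_primes h1.2.2 h3.2.2).2 (by omega)
    have c14 : Nat.Coprime x.1.1 x.2.2 := (Nat.coprime_primes h1.2.2 h4.2.2).2 (by omega)
    have c23 : Nat.Coprime x.1.2 x.2.1 := (Nat.coprime_primes h2.2.2 h3.2.2).2 (by omega)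
    have c24 : Nat.Coprime x.1.2 x.2.2 := (Nat.coprime_primes h2.2.2 h4.2.2).2 (by omega)
    have cc : Nat.Coprime (x.1.1 * x.1.2) (x.2.1 * x.2.2) :=
      Nat.Coprime.mul_left (Nat.Coprime.mul_right c13 c14) (Nat.Coprime.mul_right c23 c24)
    rw [Nat.squarefree_mul cc, Nat.squarefree_mul c12, Nat.squarefree_mul c34]
    exact ⟨⟨h1.2.2.squarefree, h2.2.2.squarefree⟩, h3.2.2.squarefree, h4.2.2.squarefree⟩
  · unfold qp
    calc t ^ 106 = t ^ 25 * t ^ 26 * (t ^ 27 * t ^ 28) := by ring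
      _ ≤ x.1.1 * x.1.2 * (x.2.1 * x.2.2) :=
        Nat.mul_le_mul (Nat.mul_le_mul h1.1.le h2.1.le) (Nat.mul_le_mul h3.1.le h4.1.le)
  · unfold qp
    calc x.1.1 * x.1.2 * (x.2.1 * x.2.2) ≤ t ^ 26 * t ^ 27 * (t ^ 28 * t ^ 29) :=
        Nat.mul_le_mul (Nat.mul_le_mul h1.2.1 h2.2.1) (Nat.mul_le_mul h3.2.1 h4.2.1)
      _ = t ^ 110 := by ring
  · intro p hp
    rw [Nat.mem_primeFactors] at hp
    rcases prime_dvd_qp hx hp.1 hp.2.1 with h | h | h | h <;> omega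

lemma sum_AA (t : ℕ) : ∑ a ∈ AA t, (1 : ℝ) / a = (∑ q ∈ QQ t 25, (1 : ℝ) / q) * (∑ q ∈ QQ t 26, (1 : ℝ) / q) *
    ((∑ q ∈ QQ t 27, (1 : ℝ) / q) * (∑ q ∈ QQ t 28, (1 : ℝ) / q)) := by
  have h1 : ∀ (A B : Finset ℕ), (∑ a ∈ A, (1 : ℝ) / a) * ∑ b ∈ B, (1 : ℝ) / b =
      ∑ x ∈ A ×ˢ B, (1 : ℝ) / ((x.1 : ℝ) * x.2) := by
    intro A B
    rw [Finset.sum_product, Finset.sum_mul_sum]
    refine Finset.sum_congr rfl fun a _ => Finset.sum_congr rfl fun b _ => ?_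
    field_simp
  rw [h1, h1, Finset.sum_mul_sum, ← Finset.sum_product', AA, Finset.sum_image (qp_injOn t), QI]
  refine Finset.sum_congr rfl fun x _ => ?_
  unfold qp
  push_cast
  field_simp

lemma mass_product (A B : Finset ℕ) : mass (A ×ˢ B) = (∑ a ∈ A, (1 : ℝ) / a) * ∑ b ∈ B, (1 : ℝ) / b := by
  unfold mass
  rw [Finset.sum_product, Finset.sum_mul_sum]
  refine Finset.sum_congr rfl fun a _ => Finset.sum_congr rfl fun b _ => ?_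
  field_simp

lemma sum_inv_sq_le (n : ℕ) (hn : 1 ≤ n) : ∑ d ∈ Finset.Icc 1 n, (1 : ℝ) / (d : ℝ) ^ 2 ≤ 2 - 1 / n := by
  induction n, hn using Nat.le_induction with
  | base => norm_num
  | succ n hn ih =>
    rw [Finset.sum_Icc_succ_top (by omega)]
    push_cast
    have h : (0 : ℝ) < (n : ℝ) := by exact_mod_cast hn
    have h2 : (1 : ℝ) / ((n : ℝ) + 1) ^ 2 ≤ 1 / n - 1 / (n + 1) := by
      rw [div_sub_div _ _ h.ne' (by positivity), div_le_div_iff₀ (by positivity) (by positivity)]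
      nlinarith
    linarith

lemma sum_SF (t : ℕ) (ht : 1 ≤ t) : Real.log t / 2 ≤ ∑ b ∈ SF t, (1 : ℝ) / b := by
  have h1 : Real.log t ≤ ∑ n ∈ Finset.Icc 1 t, (1 : ℝ) / n := by
    have h := log_add_one_le_harmonic t
    have h2 : Real.log t ≤ Real.log ((t + 1 : ℕ) : ℝ) := by
      apply Real.log_le_log (by exact_mod_cast ht)
      push_cast; linarith
    refine h2.trans (h.trans (le_of_eq ?_))
    rw [harmonic_eq_sum_Icc]
    push_cast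
    exact Finset.sum_congr rfl fun n _ => by rw [one_div]
  have h2 : ∑ n ∈ Finset.Icc 1 t, (1 : ℝ) / n ≤
      (∑ b ∈ SF t, (1 : ℝ) / b) * ∑ d ∈ Finset.Icc 1 t, (1 : ℝ) / (d : ℝ) ^ 2 := by
    rw [Finset.sum_mul_sum, ← Finset.sum_product']
    have hex : ∀ n : ℕ, ∃ x : ℕ × ℕ, x.2 ^ 2 * x.1 = n ∧ Squarefree x.1 := fun n => by
      obtain ⟨a, b, h1, h2⟩ := Nat.sq_mul_squarefree n
      exact ⟨(a, b), h1, h2⟩
    choose f hf1 hf2 using hex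
    have hinj : Set.InjOn f (Finset.Icc 1 t : Set ℕ) := by
      intro a _ b _ hab
      rw [← hf1 a, ← hf1 b, hab]
    have e : ∑ n ∈ Finset.Icc 1 t, (1 : ℝ) / n = ∑ n ∈ Finset.Icc 1 t, (1 : ℝ) / ((f n).1 : ℝ) * (1 / ((f n).2 : ℝ) ^ 2) := by
      refine Finset.sum_congr rfl fun n _ => ?_
      conv_lhs => rw [← hf1 n]
      push_cast
      rw [one_div_mul_one_div, mul_comm]
    rw [e, ← Finset.sum_image (f := fun x : ℕ × ℕ => (1 : ℝ) / (x.1 : ℝ) * (1 / (x.2 : ℝ) ^ 2)) hinj]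
    refine Finset.sum_le_sum_of_subset_of_nonneg ?_ (fun x _ _ => by positivity)
    intro x hx
    rw [Finset.mem_image] at hx
    obtain ⟨n, hn, rfl⟩ := hx
    rw [Finset.mem_Icc] at hn
    have hpos : 0 < (f n).2 ^ 2 * (f n).1 := by rw [hf1]; omega
    have hb0 : 0 < (f n).1 := Nat.pos_of_mul_pos_left hpos
    have hd0 : 0 < (f n).2 := by
      rcases Nat.eq_zero_or_pos (f n).2 with h | h
      · rw [h] at hpos; simp at hpos
      · exact h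
    rw [Finset.mem_product, SF, Finset.mem_filter, Finset.mem_Icc, Finset.mem_Icc]
    have h3 := hf1 n
    refine ⟨⟨⟨hb0, ?_⟩, hf2 n⟩, hd0, ?_⟩
    · have h6 : 1 ≤ (f n).2 ^ 2 := Nat.one_le_pow _ _ hd0
      calc (f n).1 = 1 * (f n).1 := (one_mul _).symm
        _ ≤ (f n).2 ^ 2 * (f n).1 := Nat.mul_le_mul_right _ h6
        _ ≤ t := by rw [h3]; exact hn.2
    · have h6 : (f n).2 ≤ (f n).2 ^ 2 := Nat.le_self_pow (by norm_num) _
      calc (f n).2 ≤ (f n).2 ^ 2 := h6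
        _ ≤ (f n).2 ^ 2 * (f n).1 := Nat.le_mul_of_pos_right _ hb0
        _ ≤ t := by rw [h3]; exact hn.2
  have h3 := sum_inv_sq_le t ht
  have h4 : 0 ≤ ∑ b ∈ SF t, (1 : ℝ) / b := Finset.sum_nonneg fun b _ => by positivity
  have h5 : (0 : ℝ) ≤ 1 / t := by positivity
  nlinarith

end Pool.Agent.Zk43.HC
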