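import Pool.Agent.Zk43.HC.N4

/-!
# Asymptotics, and the colouring theorem for the sum `1`
-/

set_option autoImplicit false

namespace Pool.Agent.Zk43.HC

open Finset Filter

lemma asym (K C' : ℝ) (hC : 0 ≤ C') : ∀ᶠ x : ℝ in atTop, K + Real.log x + 2 * Real.log (x + C') < x := by
  filter_upwards [eventually_gt_atTop (max 1 ((K + 6 + C' / 4) * 8 / 5))] with x hx
  have h1 : 1 < x := lt_of_le_of_lt (le_max_left _ _) hx
  have h2 : (K + 6 + C' / 4) * 8 / 5 < x := lt_of_le_of_lt (le_max_right _ _) hx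
  have hlog8 : Real.log 8 ≤ 3 := by
    rw [show (8 : ℝ) = 2 ^ 3 by norm_num, Real.log_pow]
    have := Real.log_two_lt_d9
    push_cast; linarith
  have hl : ∀ y : ℝ, 0 < y → Real.log y ≤ y / 8 + 2 := by
    intro y hy
    have h := Real.log_le_sub_one_of_pos (x := y / 8) (by positivity)
    rw [Real.log_div hy.ne' (by norm_num)] at h
    linarith
  have h3 := hl x (by linarith)
  have h4 := hl (x + C') (by linarith)
  linarith

lemma tendsto_L : Tendsto (fun t : ℕ => Real.log (t : ℝ)) atTop atTop :=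
  Real.tendsto_log_atTop.comp tendsto_natCast_atTop_atTop

lemma tendsto_LL : Tendsto (fun t : ℕ => Real.log (Real.log (t : ℝ))) atTop atTop :=
  Real.tendsto_log_atTop.comp tendsto_L

lemma sum_QQ_eq (t i : ℕ) (ht : 1 ≤ t) (f : ℕ → ℝ) :
    ∑ q ∈ PR (t ^ (i + 1)), f q = ∑ q ∈ PR (t ^ i), f q + ∑ q ∈ QQ t i, f q := by
  have h : PR (t ^ (i + 1)) = PR (t ^ i) ∪ QQ t i := by
    ext q
    rw [Finset.mem_union, mem_PR, mem_PR, mem_QQ]
    have : t ^ i ≤ t ^ (i + 1) := Nat.pow_le_pow_right ht (by omega)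
    constructor
    · rintro ⟨h1, h2⟩
      rcases le_or_gt q (t ^ i) with h | h
      · exact Or.inl ⟨h, h2⟩
      · exact Or.inr ⟨h, h1, h2⟩
    · rintro (⟨h1, h2⟩ | ⟨h1, h2, h3⟩)
      · exact ⟨h1.trans this, h2⟩
      · exact ⟨h2, h3⟩
  rw [h, Finset.sum_union]
  rw [Finset.disjoint_left]
  intro q h1 h2
  rw [mem_PR] at h1
  rw [mem_QQ] at h2
  omega

lemma QQ_lower : ∀ᶠ t : ℕ in atTop, ∀ i : ℕ, i ≤ 28 → (1 : ℝ) / 58 ≤ ∑ q ∈ QQ t i, (1 : ℝ) / q := by
  obtain ⟨C, hC⟩ := Pool.Agent.Helper601.Mertens.mertens_log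
  have hC0 : 0 ≤ C := (abs_nonneg _).trans (hC 1 le_rfl)
  filter_upwards [tendsto_L.eventually_ge_atTop (4 * C + 1), eventually_ge_atTop 1] with t hL ht i hi
  set L := Real.log (t : ℝ) with hLdef
  have hL0 : 0 < L := by linarith
  have h1 := hC (t ^ (i + 1)) (Nat.one_le_pow _ _ ht)
  have h2 := hC (t ^ i) (Nat.one_le_pow _ _ ht)
  have h3 := sum_QQ_eq t i ht (fun q => Real.log q / q)
  have e1 : Real.log ((t ^ (i + 1) : ℕ) : ℝ) = (i + 1) * L := by
    push_cast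
    rw [Real.log_pow]
    push_cast
    ring
  have e2 : Real.log ((t ^ i : ℕ) : ℝ) = i * L := by
    push_cast
    rw [Real.log_pow]
  rw [e1] at h1
  rw [e2] at h2
  have h1' := (abs_le.1 h1).1
  have h2' := (abs_le.1 h2).2
  have h4 : L - 2 * C ≤ ∑ q ∈ QQ t i, Real.log q / q := by
    have h3' : ∑ p ∈ (Finset.Icc 1 (t ^ (i + 1))).filter Nat.Prime, Real.log (p : ℝ) / (p : ℝ) =
      ∑ p ∈ (Finset.Icc 1 (t ^ i)).filter Nat.Prime, Real.log (p : ℝ) / (p : ℝ) + ∑ q ∈ QQ t i, Real.log (q : ℝ) / (q : ℝ) := h3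
    linarith
  have h5 : ∑ q ∈ QQ t i, Real.log q / q ≤ 29 * L * ∑ q ∈ QQ t i, (1 : ℝ) / q := by
    rw [Finset.mul_sum]
    refine Finset.sum_le_sum fun q hq => ?_
    rw [mem_QQ] at hq
    have hq0 : (0 : ℝ) < q := by exact_mod_cast hq.2.2.pos
    have h6 : Real.log q ≤ 29 * L := by
      calc Real.log q ≤ Real.log ((t ^ (i + 1) : ℕ) : ℝ) := Real.log_le_log hq0 (by exact_mod_cast hq.2.1)
        _ = (i + 1) * L := e1
        _ ≤ 29 * L := by
          have : (i : ℝ) ≤ 28 := by exact_mod_cast hi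
          nlinarith
    rw [div_eq_mul_one_div]
    exact mul_le_mul_of_nonneg_right h6 (by positivity)
  have h7 : L / 2 ≤ 29 * L * ∑ q ∈ QQ t i, (1 : ℝ) / q := by linarith
  by_contra hlt
  push Not at hlt
  nlinarith

/-- the primes between `t^25` and `t^29` -/
def QB (t : ℕ) : Finset ℕ := (PR (t ^ 29)).filter (fun q => t ^ 25 < q)

lemma mem_QB {t q : ℕ} : q ∈ QB t ↔ t ^ 25 < q ∧ q ≤ t ^ 29 ∧ q.Prime := by
  rw [QB, Finset.mem_filter, mem_PR]
  tauto

lemma constants : ∃ C : ℝ, 0 ≤ C ∧ (∀ n : ℕ, 3 ≤ n → TT n ≤ Real.log (Real.log n) + C) ∧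
    ∀ᶠ t : ℕ in atTop, ∑ q ∈ QB t, (1 : ℝ) / q ≤ 1 + 2 * C := by
  obtain ⟨C, hC⟩ := Pool.Agent.Helper601.Mertens.mertens_inv
  have hC0 : 0 ≤ C := (abs_nonneg _).trans (hC 3 le_rfl)
  refine ⟨C, hC0, ?_, ?_⟩
  · intro n hn
    have h := (abs_le.1 (hC n hn)).2
    have e : TT n = ∑ p ∈ (Finset.Icc 1 n).filter Nat.Prime, (1 : ℝ) / p := rfl
    rw [e]; linarith
  · filter_upwards [tendsto_L.eventually_ge_atTop 1, eventually_ge_atTop 3] with t hL ht
    set L := Real.log (t : ℝ) with hLdef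
    have hL0 : 0 < L := by linarith
    have ht1 : 1 ≤ t := by omega
    have h25 : 3 ≤ t ^ 25 := ht.trans (Nat.le_self_pow (by norm_num) t)
    have h29 : 3 ≤ t ^ 29 := ht.trans (Nat.le_self_pow (by norm_num) t)
    have h1 := (abs_le.1 (hC (t ^ 29) h29)).2
    have h2 := (abs_le.1 (hC (t ^ 25) h25)).1
    have e1 : Real.log ((t ^ 29 : ℕ) : ℝ) = 29 * L := by
      push_cast; rw [Real.log_pow]; push_cast; ring
    have e2 : Real.log ((t ^ 25 : ℕ) : ℝ) = 25 * L := by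
      push_cast; rw [Real.log_pow]; push_cast; ring
    rw [e1, Real.log_mul (by norm_num) hL0.ne'] at h1
    rw [e2, Real.log_mul (by norm_num) hL0.ne'] at h2
    have h3 : ∑ q ∈ PR (t ^ 29), (1 : ℝ) / q = ∑ q ∈ PR (t ^ 25), (1 : ℝ) / q + ∑ q ∈ QB t, (1 : ℝ) / q := by
      have h : PR (t ^ 29) = PR (t ^ 25) ∪ QB t := by
        ext q
        rw [Finset.mem_union, mem_QB, mem_PR, mem_PR]
        have : t ^ 25 ≤ t ^ 29 := Nat.pow_le_pow_right ht1 (by omega)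
        constructor
        · rintro ⟨h1, h2⟩
          rcases le_or_gt q (t ^ 25) with h | h
          · exact Or.inl ⟨h, h2⟩
          · exact Or.inr ⟨h, h1, h2⟩
        · rintro (⟨h1, h2⟩ | ⟨h1, h2, h3⟩)
          · exact ⟨h1.trans this, h2⟩
          · exact ⟨h2, h3⟩
      rw [h, Finset.sum_union]
      rw [Finset.disjoint_left]
      intro q h1 h2
      rw [mem_PR] at h1
      rw [mem_QB] at h2
      omega
    have h3' : ∑ p ∈ (Finset.Icc 1 (t ^ 29)).filter Nat.Prime, (1 : ℝ) / (p : ℝ) =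
      ∑ p ∈ (Finset.Icc 1 (t ^ 25)).filter Nat.Prime, (1 : ℝ) / (p : ℝ) + ∑ q ∈ QB t, (1 : ℝ) / (q : ℝ) := h3
    have h4 : Real.log 29 - Real.log 25 ≤ 1 := by
      rw [← Real.log_div (by norm_num) (by norm_num)]
      have := Real.log_le_sub_one_of_pos (x := (29 : ℝ) / 25) (by norm_num)
      linarith
    linarith

/-- the exponent of the power of two which exceeds the length of the short interval -/
def mm (t : ℕ) : ℕ := 86 * (Nat.log 2 t + 1)

lemma mm_pow (t : ℕ) (ht : 2 ≤ t) : 2 * t ^ 85 ≤ 2 ^ (mm t) := by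
  have h1 : t < 2 ^ (Nat.log 2 t + 1) := Nat.lt_pow_succ_log_self (by norm_num) t
  calc 2 * t ^ 85 ≤ t * t ^ 85 := Nat.mul_le_mul_right _ (by omega)
    _ = t ^ 86 := by ring
    _ ≤ (2 ^ (Nat.log 2 t + 1)) ^ 86 := Nat.pow_le_pow_left h1.le 86
    _ = 2 ^ (mm t) := by rw [← pow_mul, mm, mul_comm]

lemma mm_le (t : ℕ) (ht : 1 ≤ t) (hL : 200 ≤ Real.log (t : ℝ)) : (mm t : ℝ) ≤ 200 * Real.log (t : ℝ) := by
  have h1 : (2 : ℝ) ^ (Nat.log 2 t) ≤ t := by exact_mod_cast Nat.pow_log_le_self 2 (by omega)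
  have h2 : (Nat.log 2 t : ℝ) * Real.log 2 ≤ Real.log (t : ℝ) := by
    rw [← Real.log_pow]
    exact Real.log_le_log (by positivity) h1
  have h3 := Real.log_two_gt_d9
  have h5 : (0 : ℝ) ≤ (Nat.log 2 t : ℝ) := by positivity
  generalize hk : ((Nat.log 2 t : ℕ) : ℝ) = k at *
  have h4 : k ≤ 1.5 * Real.log (t : ℝ) := by nlinarith
  unfold mm
  push_cast
  rw [hk]
  linarith

lemma TT_mm_le (C : ℝ) (hTT : ∀ n : ℕ, 3 ≤ n → TT n ≤ Real.log (Real.log n) + C) (t : ℕ) (ht : 1 ≤ t)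
    (hL : 200 ≤ Real.log (t : ℝ)) :
    TT (mm t) ≤ Real.log 2 + Real.log (Real.log (Real.log (t : ℝ))) + C := by
  have hm3 : 3 ≤ mm t := by unfold mm; omega
  have h1 := hTT (mm t) hm3
  have hmL := mm_le t ht hL
  have hmpos : (3 : ℝ) ≤ mm t := by exact_mod_cast hm3
  set L := Real.log (t : ℝ) with hLd
  have hx0 : 0 < Real.log L := Real.log_pos (by linarith)
  have h2 : Real.log (mm t) ≤ 2 * Real.log L := by
    have h3 : Real.log (mm t) ≤ Real.log (200 * L) := Real.log_le_log (by linarith) hmL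
    rw [Real.log_mul (by norm_num) (by linarith)] at h3
    have h4 : Real.log 200 ≤ Real.log L := Real.log_le_log (by norm_num) hL
    linarith
  have h3 : 0 < Real.log (mm t) := Real.log_pos (by linarith)
  have h5 : Real.log (Real.log (mm t)) ≤ Real.log (2 * Real.log L) := Real.log_le_log h3 h2
  rw [Real.log_mul (by norm_num) hx0.ne'] at h5
  linarith

lemma numerics (r : ℕ) (hr : 1 ≤ r) (C : ℝ) (hC0 : 0 ≤ C) (hTT : ∀ n : ℕ, 3 ≤ n → TT n ≤ Real.log (Real.log n) + C)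
    (U cA : ℝ) (hU0 : 0 < U) (hcA0 : 0 < cA) : ∀ᶠ t : ℕ in atTop, ∀ M : ℝ, cA * Real.log (t : ℝ) / 2 ≤ M →
      4 * (r : ℝ) ≤ M ∧ 2 * (r : ℝ) * (TT (t ^ 29) + 1) ≤ t ∧
      TT t + TT (mm t) + 1 < 2 * Real.log (M / (2 * r * (TT (t ^ 29) + 1)) / (8 * U)) := by
  have hr0 : (0 : ℝ) < r := by exact_mod_cast hr
  obtain ⟨C', hC'⟩ : ∃ C', C' = Real.log 29 + C + 1 := ⟨_, rfl⟩
  have hl29 : 0 ≤ Real.log 29 := Real.log_nonneg (by norm_num)
  have hC'0 : 0 ≤ C' := by rw [hC']; positivity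
  have hlin : ∀ᶠ x : ℝ in atTop, 2 * (r : ℝ) * (x + C') ≤ Real.exp x := by
    have h := asym (Real.log (2 * r)) C' hC'0
    filter_upwards [h, eventually_ge_atTop 1] with x hx hx1
    have h1 : 0 < x + C' := by linarith
    have h2 : 0 ≤ Real.log x := Real.log_nonneg hx1
    have h3 : 0 ≤ Real.log (x + C') := Real.log_nonneg (by linarith)
    have h4 : Real.log (2 * r * (x + C')) ≤ x := by
      rw [Real.log_mul (by positivity) h1.ne']
      linarith
    rwa [Real.log_le_iff_le_exp (by positivity)] at h4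
  filter_upwards [eventually_ge_atTop 400,
    tendsto_LL.eventually (asym (2 * C + Real.log 2 + 1 - 2 * Real.log (cA / (32 * r * U))) C' hC'0),
    tendsto_LL.eventually_ge_atTop 6,
    tendsto_LL.eventually hlin, tendsto_L.eventually_ge_atTop (8 * r / cA)] with t ht hasym hx6 hlin hLbig
  intro M hM
  have ht1 : 1 ≤ t := by omega
  have htR : (400 : ℝ) ≤ t := by exact_mod_cast ht
  have hLpos : 0 < Real.log (t : ℝ) := Real.log_pos (by linarith)
  have hL200 : 200 ≤ Real.log (t : ℝ) := by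
    have h1 : Real.exp 6 ≤ Real.log (t : ℝ) := by
      rw [← Real.le_log_iff_exp_le hLpos]; exact hx6
    have h2 : (200 : ℝ) ≤ Real.exp 6 := by
      have h3 := Real.exp_one_gt_d9
      have h4 : Real.exp 6 = Real.exp 1 ^ 6 := by rw [← Real.exp_nat_mul]; norm_num
      rw [h4]
      calc (200 : ℝ) ≤ 2.7 ^ 6 := by norm_num
        _ ≤ Real.exp 1 ^ 6 := pow_le_pow_left₀ (by norm_num) (by linarith) 6
    linarith
  have hTm := TT_mm_le C hTT t ht1 hL200
  have hTt : TT t ≤ Real.log (Real.log (t : ℝ)) + C := hTT t (by omega)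
  have hT29 : TT (t ^ 29) + 1 ≤ Real.log (Real.log (t : ℝ)) + C' := by
    have h29 : 3 ≤ t ^ 29 := by
      have : t ≤ t ^ 29 := Nat.le_self_pow (by norm_num) t
      omega
    have h1 := hTT (t ^ 29) h29
    have e1 : Real.log ((t ^ 29 : ℕ) : ℝ) = 29 * Real.log (t : ℝ) := by
      push_cast; rw [Real.log_pow]; push_cast; ring
    rw [e1, Real.log_mul (by norm_num) hLpos.ne'] at h1
    rw [hC']
    linarith
  have hTT0 : 0 ≤ TT (t ^ 29) := Finset.sum_nonneg fun q _ => by positivity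
  have hexp : Real.exp (Real.log (Real.log (t : ℝ))) = Real.log (t : ℝ) := Real.exp_log hLpos
  have hLt : Real.log (t : ℝ) ≤ t := (Real.log_le_sub_one_of_pos (by linarith)).trans (by linarith)
  generalize hLd : Real.log (t : ℝ) = L at *
  generalize hxd : Real.log L = x at *
  generalize hTd : TT (t ^ 29) = T at *
  have hM4 : 4 * (r : ℝ) ≤ M := by
    have h1 : 8 * (r : ℝ) ≤ L * cA := by rwa [div_le_iff₀ hcA0] at hLbig
    have h2 : L * cA = cA * L := mul_comm _ _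
    linarith
  refine ⟨hM4, ?_, ?_⟩
  · calc 2 * (r : ℝ) * (T + 1) ≤ 2 * r * (x + C') := by gcongr
      _ ≤ Real.exp x := hlin
      _ ≤ t := by rw [hexp]; exact hLt
  · have hMpos : 0 < M := by linarith
    have hxC : 0 < x + C' := by linarith
    have h1 : cA / (32 * r * U) * (L / (x + C')) ≤ M / (2 * r * (T + 1)) / (8 * U) := by
      have e : cA / (32 * r * U) * (L / (x + C')) = (cA * L / 2) / (2 * r * (x + C')) / (8 * U) := by
        field_simp; ring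
      rw [e]
      gcongr
    have h2 : Real.log (cA / (32 * r * U) * (L / (x + C'))) ≤
        Real.log (M / (2 * r * (T + 1)) / (8 * U)) :=
      Real.log_le_log (by positivity) h1
    rw [Real.log_mul (by positivity) (by positivity), Real.log_div hLpos.ne' hxC.ne', hxd] at h2
    linarith

/-- **The colouring theorem for the sum `1`.** -/
theorem colour_one (r : ℕ) (hr : 1 ≤ r) : ∀ᶠ t : ℕ in atTop, ∀ c : ℕ → Fin r, ∃ i : Fin r, ∃ F : Finset ℕ,
    (∀ n ∈ F, t ≤ n ∧ c n = i) ∧ ∑ n ∈ F, (1 : ℝ) / n = 1 := by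
  obtain ⟨C, hC0, hTT, hQB⟩ := constants
  filter_upwards [eventually_ge_atTop 400, QQ_lower, hQB,
    numerics r hr C hC0 hTT (Real.exp (1 + 2 * C)) ((1 / 58) ^ 4) (Real.exp_pos _) (by positivity)] with t ht hQ hB hnum
  intro c
  have ht1 : 1 ≤ t := by omega
  have hr0 : (0 : ℝ) < r := by exact_mod_cast hr
  -- the properties of the large parts
  have hAprop := AA_prop t ht1
  have hAQ : ∀ a ∈ AA t, Squarefree a ∧ a.primeFactors ⊆ QB t := by
    intro a ha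
    obtain ⟨h1, h2, h3, h4⟩ := hAprop a ha
    refine ⟨h1, fun p hp => ?_⟩
    rw [mem_QB]
    exact ⟨(h4 p hp).1, (h4 p hp).2, Nat.prime_of_mem_primeFactors hp⟩
  have hprodU : ∏ q ∈ QB t, (1 + (1 : ℝ) / q) ≤ Real.exp (1 + 2 * C) :=
    (prod_le_exp _).trans (Real.exp_le_exp.2 hB)
  have hU1 : ∑ a ∈ AA t, (1 : ℝ) / a ≤ Real.exp (1 + 2 * C) := (sum_inv_le_prod _ _ hAQ).trans hprodU
  have hU2 : ∀ p : ℕ, p.Prime → ∑ a ∈ (AA t).filter (fun a => p ∣ a), (1 : ℝ) / a ≤ Real.exp (1 + 2 * C) / p :=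
    fun p hp => (sum_inv_mult_le _ _ hAQ p hp).trans (div_le_div_of_nonneg_right hprodU (by positivity))
  have hM : (1 / 58) ^ 4 * Real.log (t : ℝ) / 2 ≤ mass (AA t ×ˢ SF t) := by
    rw [mass_product]
    have h1 : ((1 : ℝ) / 58) ^ 4 ≤ ∑ a ∈ AA t, (1 : ℝ) / a := by
      rw [sum_AA]
      have q1 := hQ 25 (by norm_num)
      have q2 := hQ 26 (by norm_num)
      have q3 := hQ 27 (by norm_num)
      have q4 := hQ 28 (by norm_num)
      calc ((1 : ℝ) / 58) ^ 4 = (1 / 58) * (1 / 58) * ((1 / 58) * (1 / 58)) := by ring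
        _ ≤ _ := by gcongr
    have h2 := sum_SF t ht1
    have h3 : 0 ≤ Real.log (t : ℝ) := Real.log_nonneg (by exact_mod_cast ht1)
    calc (1 / 58) ^ 4 * Real.log (t : ℝ) / 2 = (1 / 58) ^ 4 * (Real.log (t : ℝ) / 2) := by ring
      _ ≤ _ := mul_le_mul h1 h2 (by positivity) (le_trans (by positivity) h1)
  obtain ⟨hM4, hT, hbig⟩ := hnum _ hM
  -- the colour class
  classical
  obtain ⟨i, _, hi⟩ : ∃ i ∈ (Finset.univ : Finset (Fin r)), mass (AA t ×ˢ SF t) / r ≤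
      mass ((AA t ×ˢ SF t).filter (fun y => c (y.1 * y.2) = i)) := by
    apply Finset.exists_le_of_sum_le
    · exact ⟨⟨0, hr⟩, Finset.mem_univ _⟩
    · rw [Finset.sum_const, Finset.card_univ, Fintype.card_fin, nsmul_eq_mul]
      have e1 : (r : ℝ) * (mass (AA t ×ˢ SF t) / r) = mass (AA t ×ˢ SF t) := by field_simp
      rw [e1]
      unfold mass
      rw [Finset.sum_fiberwise]
  obtain ⟨S, hS, hS1⟩ := scale_step t r (mm t) ht hr (AA t)
    (fun a ha => by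
      obtain ⟨h1, h2, h3, h4⟩ := hAprop a ha
      refine ⟨h1, h2, h3, fun p hp => ⟨?_, (h4 p hp).2⟩⟩
      exact lt_of_le_of_lt (Nat.le_self_pow (by norm_num) t) (h4 p hp).1)
    (Real.exp (1 + 2 * C)) (Real.exp_pos _) hU1 hU2 (mm_pow t (by omega)) hM4 hT hbig _ (Finset.filter_subset _ _) hi
  have hmemS : ∀ y ∈ S, (y.1 ∈ AA t ∧ y.2 ∈ SF t) ∧ c (y.1 * y.2) = i := by
    intro y hy
    have := Finset.mem_filter.1 (hS hy)
    exact ⟨Finset.mem_product.1 this.1, this.2⟩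
  have hSF : ∀ b ∈ SF t, 1 ≤ b ∧ b ≤ t := fun b hb => by
    rw [SF, Finset.mem_filter, Finset.mem_Icc] at hb
    exact hb.1
  have hcop : ∀ a ∈ AA t, ∀ b ∈ SF t, Nat.Coprime a b := by
    intro a ha b hb
    obtain ⟨h1, h2, h3, h4⟩ := hAprop a ha
    rw [Nat.coprime_iff_gcd_eq_one]
    by_contra hg
    obtain ⟨p, hp, hpd⟩ := Nat.exists_prime_and_dvd hg
    have g1 : p ∣ a := hpd.trans (Nat.gcd_dvd_left _ _)
    have g2 : p ∣ b := hpd.trans (Nat.gcd_dvd_right _ _)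
    have g3 := (h4 p (Nat.mem_primeFactors.2 ⟨hp, g1, h1.ne_zero⟩)).1
    have g4 := Nat.le_of_dvd (hSF b hb).1 g2
    have g5 := (hSF b hb).2
    have g6 : t ≤ t ^ 25 := Nat.le_self_pow (by norm_num) t
    omega
  have hinj : Set.InjOn (fun y : ℕ × ℕ => y.1 * y.2) (S : Set (ℕ × ℕ)) := by
    intro y hy z hz hyz
    simp only at hyz
    obtain ⟨⟨y1, y2⟩, -⟩ := hmemS y hy
    obtain ⟨⟨z1, z2⟩, -⟩ := hmemS z hz
    have d1 : y.1 ∣ z.1 := (hcop _ y1 _ z2).dvd_of_dvd_mul_right (hyz ▸ Dvd.intro _ rfl)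
    have d2 : z.1 ∣ y.1 := (hcop _ z1 _ y2).dvd_of_dvd_mul_right (hyz ▸ Dvd.intro _ rfl)
    have e1 : y.1 = z.1 := Nat.dvd_antisymm d1 d2
    have hpos : 0 < z.1 := Nat.pos_of_ne_zero (hAprop _ z1).1.ne_zero
    rw [e1] at hyz
    exact Prod.ext e1 (Nat.eq_of_mul_eq_mul_left hpos hyz)
  refine ⟨i, S.image (fun y : ℕ × ℕ => y.1 * y.2), ?_, ?_⟩
  · intro n hn
    rw [Finset.mem_image] at hn
    obtain ⟨y, hy, rfl⟩ := hn
    obtain ⟨⟨y1, y2⟩, y3⟩ := hmemS y hy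
    refine ⟨?_, y3⟩
    have h1 := (hAprop _ y1).2.1
    have h2 : t ≤ t ^ 106 := Nat.le_self_pow (by norm_num) t
    exact h2.trans (h1.trans (Nat.le_mul_of_pos_right _ (hSF _ y2).1))
  · rw [Finset.sum_image hinj]
    have e : ∑ x ∈ S, (1 : ℝ) / ((x.1 * x.2 : ℕ) : ℝ) = mass S :=
      Finset.sum_congr rfl fun y _ => by push_cast; rfl
    rw [e, hS1]

end Pool.Agent.Zk43.HC
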